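import Pool.Agent.K6.H59.GP.Diff

set_option autoImplicit false

/-! # Functions that are polynomials along a progression, with compatible dilates -/

namespace Pool.Agent.K6.H59.GP

open Polynomial Finset

/-- data: a progression `u0 + a j`, `a < L`, and the dilates `i D j`, `|i| ≤ M` -/
structure Dat where
  u0 : ℤ
  j : ℤ
  L : ℕ
  D : ℕ
  M : ℕ

/-- `f` is along the progression a polynomial of degree at most `w`, and its values at the dilates
are those of the leading form -/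
def Comp (t : Dat) (w : ℕ) (f : ℤ → ℝ) : Prop :=
  ∃ p : ℝ[X], p.natDegree ≤ w ∧ (∀ a : ℕ, a < t.L → f (t.u0 + a * t.j) = p.eval (a : ℝ)) ∧
    ∀ i : ℤ, |i| ≤ t.M → f (i * (t.D * t.j)) = (i : ℝ) ^ w * (t.D : ℝ) ^ w * p.coeff w

variable {t : Dat}

theorem Comp.congr {w : ℕ} {f g : ℤ → ℝ} (h : ∀ u, f u = g u) (hf : Comp t w f) : Comp t w g := by
  rwa [← (funext h : f = g)]

theorem Comp.const (c : ℝ) : Comp t 0 (fun _ => c) :=
  ⟨C c, by simp, fun a _ => by simp, fun i _ => by simp⟩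

theorem Comp.zero (w : ℕ) : Comp t w (fun _ => 0) :=
  ⟨0, by simp, fun a _ => by simp, fun i _ => by simp⟩

theorem Comp.var : Comp t 1 (fun u => (u : ℝ)) := by
  refine ⟨C (t.u0 : ℝ) + C (t.j : ℝ) * X, ?_, fun a _ => ?_, fun i _ => ?_⟩
  · refine (natDegree_add_le _ _).trans (max_le (by simp) ?_)
    exact (natDegree_C_mul_le _ _).trans (by simp)
  · simp only [eval_add, eval_C, eval_mul, eval_X]
    push_cast; ring
  · simp only [coeff_add, coeff_C_succ, coeff_C_mul, coeff_X_one]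
    push_cast; ring

theorem Comp.add {w : ℕ} {f g : ℤ → ℝ} (hf : Comp t w f) (hg : Comp t w g) :
    Comp t w (fun u => f u + g u) := by
  obtain ⟨p, hp, hp1, hp2⟩ := hf
  obtain ⟨q, hq, hq1, hq2⟩ := hg
  refine ⟨p + q, (natDegree_add_le _ _).trans (max_le hp hq), fun a ha => ?_, fun i hi => ?_⟩
  · beta_reduce; rw [hp1 a ha, hq1 a ha, eval_add]
  · beta_reduce; rw [hp2 i hi, hq2 i hi, coeff_add]; ring

theorem Comp.mul {w w' : ℕ} {f g : ℤ → ℝ} (hf : Comp t w f) (hg : Comp t w' g) :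
    Comp t (w + w') (fun u => f u * g u) := by
  obtain ⟨p, hp, hp1, hp2⟩ := hf
  obtain ⟨q, hq, hq1, hq2⟩ := hg
  refine ⟨p * q, natDegree_mul_le.trans (add_le_add hp hq), fun a ha => ?_, fun i hi => ?_⟩
  · beta_reduce; rw [hp1 a ha, hq1 a ha, eval_mul]
  · beta_reduce; rw [hp2 i hi, hq2 i hi, coeff_mul_add_eq_of_natDegree_le hp hq]; ring

theorem Comp.smul {w : ℕ} {f : ℤ → ℝ} (c : ℝ) (hf : Comp t w f) :
    Comp t w (fun u => c * f u) := by
  have := Comp.mul (Comp.const (t := t) c) hf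
  rwa [zero_add] at this

theorem Comp.sum {ι : Type} (s : Finset ι) {w : ℕ} (f : ι → ℤ → ℝ)
    (h : ∀ i ∈ s, Comp t w (f i)) : Comp t w (fun u => ∑ i ∈ s, f i u) := by
  classical
  induction s using Finset.induction_on with
  | empty => simpa using Comp.zero w
  | insert a s ha ih =>
    refine Comp.congr (fun u => ?_) (Comp.add (h a (mem_insert_self _ _))
      (ih (fun i hi => h i (mem_insert_of_mem hi))))
    rw [sum_insert ha]

theorem Comp.floor_zero {f : ℤ → ℝ} (hf : Comp t 0 f) : Comp t 0 (fun u => ((⌊f u⌋ : ℤ) : ℝ)) := by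
  obtain ⟨p, hp, hp1, hp2⟩ := hf
  have hc : p = C (p.coeff 0) := eq_C_of_natDegree_le_zero hp
  refine ⟨C ((⌊p.coeff 0⌋ : ℤ) : ℝ), by simp, fun a ha => ?_, fun i hi => ?_⟩
  · beta_reduce; rw [hp1 a ha, hc]; simp
  · beta_reduce; rw [hp2 i hi]; simp

/-- rounding -/
theorem Comp.rounding {w q : ℕ} {f : ℤ → ℝ} {ε : ℝ} (hf : Comp t w f) (hw : 1 ≤ w)
    (hL : w + 1 ≤ t.L) (hq : 2 ^ (w + 1) < q) (hD : w.factorial ∣ t.D)
    (hε : (t.M : ℝ) ^ w * (t.D : ℝ) ^ w * 2 ^ w ≤ ε * q) (hε2 : ε < 1 / 2)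
    (κ : ℕ) (hm : ∀ a : ℕ, a < t.L →
      ⌊(q : ℝ) * Int.fract (f (t.u0 + a * t.j) + 1 / 2)⌋₊ = κ) :
    Comp t w (fun u => ((round (f u) : ℤ) : ℝ)) ∧
      ∀ i : ℤ, |i| ≤ t.M → |f (i * (t.D * t.j)) - round (f (i * (t.D * t.j)))| ≤ ε := by
  obtain ⟨p, hp, hp1, hp2⟩ := hf
  have hq0 : (0 : ℝ) < q := by
    have : 0 < q := lt_trans (by positivity) hq
    exact_mod_cast this
  have hnear : ∀ a : ℕ, a < t.L →
      |p.eval (a : ℝ) - ((round (f (t.u0 + a * t.j)) : ℤ) : ℝ) - ((κ : ℝ) / q - 1 / 2)| ≤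
        1 / q := by
    intro a ha
    rw [← hp1 a ha, round_eq]
    set y := f (t.u0 + a * t.j) with hy
    have h1 := hm a ha
    rw [← hy] at h1
    have h2 : 0 ≤ (q : ℝ) * Int.fract (y + 1 / 2) := mul_nonneg hq0.le (Int.fract_nonneg _)
    have h3 := Nat.floor_le h2
    have h4 := Nat.lt_floor_add_one ((q : ℝ) * Int.fract (y + 1 / 2))
    rw [h1] at h3 h4
    have h5 : Int.fract (y + 1 / 2) = y + 1 / 2 - ⌊y + 1 / 2⌋ := rfl
    have h6 : (κ : ℝ) / q ≤ Int.fract (y + 1 / 2) := by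
      rw [div_le_iff₀ hq0]; linarith
    have h7 : Int.fract (y + 1 / 2) < ((κ : ℝ) + 1) / q := by
      rw [lt_div_iff₀ hq0]; linarith
    rw [add_div] at h7
    rw [abs_le]
    constructor
    · have : (0 : ℝ) ≤ 1 / q := by positivity
      linarith
    · linarith
  obtain ⟨P, hP, hP1, hP2, z, hz⟩ := near_poly t.L w hw hL
    (fun a => round (f (t.u0 + a * t.j))) p hp ((κ : ℝ) / q - 1 / 2) (1 / q)
    (by rw [mul_one_div, div_lt_one hq0]; exact_mod_cast hq) hnear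
  obtain ⟨D', hD'⟩ := hD
  have hDpow : ∃ E : ℤ, (t.D : ℝ) ^ w = w.factorial * E := by
    obtain ⟨w', rfl⟩ := Nat.exists_eq_add_of_le' hw
    refine ⟨(t.D : ℤ) ^ w' * D', ?_⟩
    push_cast
    rw [pow_succ]
    conv_lhs => rw [hD']
    conv_rhs => rw [hD']
    push_cast; ring
  obtain ⟨E, hE⟩ := hDpow
  have hfac : (0 : ℝ) < w.factorial := by exact_mod_cast w.factorial_pos
  have hfac1 : (1 : ℝ) ≤ w.factorial := by exact_mod_cast w.factorial_pos
  have hint : (t.D : ℝ) ^ w * P.coeff w = ((E * z : ℤ) : ℝ) := by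
    rw [hE]; push_cast; rw [← hz]; ring
  have hclose : ∀ i : ℤ, |i| ≤ t.M →
      |f (i * (t.D * t.j)) - ((i ^ w * (E * z) : ℤ) : ℝ)| ≤ ε := by
    intro i hi
    have e1 : f (i * (t.D * t.j)) - ((i ^ w * (E * z) : ℤ) : ℝ) =
        (i : ℝ) ^ w * (t.D : ℝ) ^ w * (p.coeff w - P.coeff w) := by
      rw [hp2 i hi]
      have : ((i ^ w * (E * z) : ℤ) : ℝ) = (i : ℝ) ^ w * ((t.D : ℝ) ^ w * P.coeff w) := by
        rw [hint]; push_cast; ring
      rw [this]; ring
    rw [e1, abs_mul, abs_mul, abs_pow, abs_pow, Nat.abs_cast]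
    have h1 : |(p.coeff w - P.coeff w)| ≤ 2 ^ w * (1 / q) := by
      refine le_trans ?_ hP2
      rw [abs_mul, abs_of_pos hfac]
      exact le_mul_of_one_le_left (abs_nonneg _) hfac1
    have h2 : |(i : ℝ)| ^ w ≤ (t.M : ℝ) ^ w := by
      refine pow_le_pow_left₀ (abs_nonneg _) ?_ w
      exact_mod_cast hi
    calc |(i : ℝ)| ^ w * (t.D : ℝ) ^ w * |p.coeff w - P.coeff w|
        ≤ (t.M : ℝ) ^ w * (t.D : ℝ) ^ w * (2 ^ w * (1 / q)) := by
          refine mul_le_mul (mul_le_mul_of_nonneg_right h2 (by positivity)) h1 (abs_nonneg _)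
            (by positivity)
      _ = (t.M : ℝ) ^ w * (t.D : ℝ) ^ w * 2 ^ w / q := by ring
      _ ≤ ε := by rw [div_le_iff₀ hq0]; exact hε
  have hround : ∀ i : ℤ, |i| ≤ t.M → round (f (i * (t.D * t.j))) = i ^ w * (E * z) := by
    intro i hi
    have h1 := abs_le.1 (hclose i hi)
    rw [round_eq, Int.floor_eq_iff]
    constructor
    · linarith [h1.1]
    · linarith [h1.2]
  refine ⟨⟨P, hP, fun a ha => hP1 a ha, fun i hi => ?_⟩, fun i hi => ?_⟩
  · beta_reduce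
    rw [hround i hi]
    push_cast
    have := hint
    push_cast at this
    rw [mul_assoc ((i : ℝ) ^ w), this]
  · rw [hround i hi]
    exact hclose i hi

/-- polynomial valued functions all of whose coefficients are compatible -/
def GC (t : Dat) (F : ℤ → ℝ[X]) : Prop := ∀ w, Comp t w (fun u => (F u).coeff w)

theorem GC.congr {F G : ℤ → ℝ[X]} (h : ∀ u, F u = G u) (hF : GC t F) : GC t G := by
  rwa [← (funext h : F = G)]

theorem GC.const (c : ℝ) : GC t (fun _ => C c) := by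
  intro w
  rcases Nat.eq_zero_or_pos w with h | h
  · subst h; exact Comp.congr (fun u => by simp) (Comp.const c)
  · refine Comp.congr (fun u => ?_) (Comp.zero w)
    rw [coeff_C, if_neg (by omega)]

theorem GC.lin (c b : ℝ) : GC t (fun u => C c + C (b * u) * X) := by
  intro w
  rcases Nat.eq_zero_or_pos w with h | h
  · subst h
    exact Comp.congr (fun u => by simp) (Comp.const c)
  · rcases Nat.lt_or_ge 1 w with h1 | h1
    · refine Comp.congr (fun u => ?_) (Comp.zero w)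
      rw [coeff_add, coeff_C, if_neg (by omega), coeff_C_mul, coeff_X, if_neg (by omega)]
      simp
    · obtain rfl : w = 1 := by omega
      refine Comp.congr (fun u => ?_) (Comp.smul b Comp.var)
      rw [coeff_add, coeff_C, if_neg (by omega), coeff_C_mul, coeff_X, if_pos rfl]
      simp

theorem GC.add {F G : ℤ → ℝ[X]} (hF : GC t F) (hG : GC t G) : GC t (fun u => F u + G u) :=
  fun w => Comp.congr (fun u => by rw [coeff_add]) (Comp.add (hF w) (hG w))

theorem GC.mul {F G : ℤ → ℝ[X]} (hF : GC t F) (hG : GC t G) : GC t (fun u => F u * G u) := by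
  intro w
  have := Comp.sum (t := t) (w := w) (Finset.HasAntidiagonal.antidiagonal w)
    (fun x u => (F u).coeff x.1 * (G u).coeff x.2) ?_
  · exact Comp.congr (fun u => by rw [coeff_mul]) this
  · intro x hx
    rw [Finset.HasAntidiagonal.mem_antidiagonal] at hx
    have h1 := Comp.mul (hF x.1) (hG x.2)
    rwa [hx] at h1

theorem GC.aeval {σ : Type} (F : σ → ℤ → ℝ[X]) (hF : ∀ s, GC t (F s)) (H : MvPolynomial σ ℝ) :
    GC t (fun u => MvPolynomial.aeval (fun s => F s u) H) := by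
  induction H using MvPolynomial.induction_on with
  | C a => exact GC.congr (fun u => by simp) (GC.const a)
  | add p q hp hq => exact GC.congr (fun u => by rw [map_add]) (GC.add hp hq)
  | mul_X p s hp =>
    exact GC.congr (fun u => by rw [map_mul, MvPolynomial.aeval_X]) (GC.mul hp (hF s))

/-- rounding of the coefficients, and taking the integral part of the constant term -/
noncomputable def rnd (d : ℕ) (P : ℝ[X]) : ℤ[X] :=
  C ⌊P.coeff 0⌋ + ∑ w ∈ Icc 1 d, monomial w (round (P.coeff w))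

theorem rnd_coeff (d : ℕ) (P : ℝ[X]) (w : ℕ) : (rnd d P).coeff w =
    if w = 0 then ⌊P.coeff 0⌋ else if w ≤ d then round (P.coeff w) else 0 := by
  unfold rnd
  rw [coeff_add, finsetSum_coeff, coeff_C]
  simp only [coeff_monomial]
  rw [Finset.sum_ite_eq' (Finset.Icc 1 d) w]
  rcases Nat.eq_zero_or_pos w with h | h
  · subst h; simp
  · have hj0 : w ≠ 0 := by omega
    simp only [Finset.mem_Icc]
    by_cases h2 : w ≤ d
    · have h3 : 1 ≤ w ∧ w ≤ d := ⟨h, h2⟩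
      simp [hj0, h2]
    · have h3 : ¬ (1 ≤ w ∧ w ≤ d) := fun h3 => h2 h3.2
      simp [hj0, h2]

theorem rnd_natDegree (d : ℕ) (P : ℝ[X]) : (rnd d P).natDegree ≤ d := by
  rw [natDegree_le_iff_coeff_eq_zero]
  intro w hw
  rw [rnd_coeff, if_neg (by omega), if_neg (by omega)]

theorem GC.rnd {d q : ℕ} {ε : ℝ} {F : ℤ → ℝ[X]} (hF : GC t F) (hL : d + 1 ≤ t.L)
    (hq : 2 ^ (d + 1) < q) (hD : ∀ w, 1 ≤ w → w ≤ d → w.factorial ∣ t.D) (hD1 : 1 ≤ t.D)
    (hM1 : 1 ≤ t.M) (hε : (t.M : ℝ) ^ d * (t.D : ℝ) ^ d * 2 ^ d ≤ ε * q) (hε2 : ε < 1 / 2)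
    (κ : ℕ → ℕ) (hm : ∀ w, 1 ≤ w → w ≤ d → ∀ a : ℕ, a < t.L →
      ⌊(q : ℝ) * Int.fract ((F (t.u0 + a * t.j)).coeff w + 1 / 2)⌋₊ = κ w) :
    GC t (fun u => (GP.rnd d (F u)).map (Int.castRingHom ℝ)) ∧
      ∀ w, 1 ≤ w → w ≤ d → ∀ i : ℤ, |i| ≤ t.M →
        |(F (i * (t.D * t.j))).coeff w - round ((F (i * (t.D * t.j))).coeff w)| ≤ ε := by
  have key : ∀ w, 1 ≤ w → w ≤ d →
      Comp t w (fun u => ((round ((F u).coeff w) : ℤ) : ℝ)) ∧
      ∀ i : ℤ, |i| ≤ t.M →
        |(F (i * (t.D * t.j))).coeff w - round ((F (i * (t.D * t.j))).coeff w)| ≤ ε := by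
    intro w h1 h2
    refine Comp.rounding (hF w) h1 (by omega) (lt_of_le_of_lt ?_ hq) (hD w h1 h2) ?_ hε2 (κ w)
      (hm w h1 h2)
    · exact Nat.pow_le_pow_right (by norm_num) (by omega)
    · refine le_trans ?_ hε
      have hM : (1 : ℝ) ≤ t.M := by exact_mod_cast hM1
      have hDD : (1 : ℝ) ≤ t.D := by exact_mod_cast hD1
      refine mul_le_mul (mul_le_mul (pow_le_pow_right₀ hM h2) (pow_le_pow_right₀ hDD h2)
        (by positivity) (by positivity)) (pow_le_pow_right₀ (by norm_num) h2) (by positivity)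
        (by positivity)
  refine ⟨?_, fun w h1 h2 => (key w h1 h2).2⟩
  intro w
  rcases Nat.eq_zero_or_pos w with h | h
  · subst h
    refine Comp.congr (fun u => ?_) (Comp.floor_zero (hF 0))
    rw [coeff_map, rnd_coeff, if_pos rfl]; simp
  · by_cases h2 : w ≤ d
    · refine Comp.congr (fun u => ?_) (key w h h2).1
      rw [coeff_map, rnd_coeff, if_neg (by omega), if_pos h2]; simp
    · refine Comp.congr (fun u => ?_) (Comp.zero w)
      rw [coeff_map, rnd_coeff, if_neg (by omega), if_neg h2]; simp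

/-- evaluation of the rounded polynomial at small integers -/
theorem rnd_eval {d : ℕ} {P : ℝ[X]} (hP : P.natDegree ≤ d) {ε ρ : ℝ} {M : ℕ}
    (hM1 : 1 ≤ M) (hε : d * (ε * (M : ℝ) ^ d) < ρ)
    (hc : ∀ w, 1 ≤ w → w ≤ d → |P.coeff w - round (P.coeff w)| ≤ ε) (hε0 : 0 ≤ ε)
    (h0 : ρ ≤ Int.fract (P.coeff 0)) (h1 : Int.fract (P.coeff 0) ≤ 1 - ρ)
    {i : ℤ} (hi : |i| ≤ M) : ⌊P.eval (i : ℝ)⌋ = (rnd d P).eval i := by
  have e1 : P.eval (i : ℝ) = P.coeff 0 + ∑ w ∈ Icc 1 d, P.coeff w * (i : ℝ) ^ w := by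
    rw [eval_eq_sum_range' (Nat.lt_succ_of_le hP), Finset.sum_range_succ', add_comm]
    simp only [pow_zero, mul_one]
    congr 1
    rw [Finset.range_eq_Ico, Finset.sum_Ico_add' (fun w => P.coeff w * (i : ℝ) ^ w) 0 d 1]
    refine Finset.sum_congr ?_ fun _ _ => rfl
    ext w; simp only [Finset.mem_Ico, Finset.mem_Icc]; omega
  have e2 : (((rnd d P).eval i : ℤ) : ℝ) =
      ((⌊P.coeff 0⌋ : ℤ) : ℝ) + ∑ w ∈ Icc 1 d, ((round (P.coeff w) : ℤ) : ℝ) * (i : ℝ) ^ w := by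
    unfold rnd
    rw [eval_add, eval_C, eval_finsetSum]
    simp only [eval_monomial]
    push_cast; rfl
  have e3 : |∑ w ∈ Icc 1 d, (P.coeff w - ((round (P.coeff w) : ℤ) : ℝ)) * (i : ℝ) ^ w| ≤
      d * (ε * (M : ℝ) ^ d) := by
    refine (abs_sum_le_sum_abs _ _).trans ?_
    have : ∀ w ∈ Icc 1 d, |(P.coeff w - ((round (P.coeff w) : ℤ) : ℝ)) * (i : ℝ) ^ w| ≤
        ε * (M : ℝ) ^ d := by
      intro w hw
      rw [mem_Icc] at hw
      rw [abs_mul, abs_pow]
      refine mul_le_mul (hc w hw.1 hw.2) ?_ (by positivity) hε0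
      have h2 : |(i : ℝ)| ≤ M := by exact_mod_cast hi
      have h3 : (1 : ℝ) ≤ M := by exact_mod_cast hM1
      exact (pow_le_pow_left₀ (abs_nonneg _) h2 w).trans (pow_le_pow_right₀ h3 hw.2)
    refine (sum_le_sum this).trans ?_
    rw [sum_const, Nat.card_Icc, nsmul_eq_mul]
    simp
  have e4 : P.eval (i : ℝ) = (((rnd d P).eval i : ℤ) : ℝ) + (Int.fract (P.coeff 0) +
      ∑ w ∈ Icc 1 d, (P.coeff w - ((round (P.coeff w) : ℤ) : ℝ)) * (i : ℝ) ^ w) := by
    rw [e1, e2, Int.fract]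
    simp only [sub_mul, sum_sub_distrib]
    ring
  rw [Int.floor_eq_iff, e4]
  have h2 := abs_le.1 e3
  constructor
  · linarith [h2.1]
  · linarith [h2.2]

end Pool.Agent.K6.H59.GP
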