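import Mathlib

set_option autoImplicit false

/-! # Sets of returns that meet every ray are dense -/

namespace Pool.Agent.K6.H59.GP

open Finset

/-- the cube of side `2 T + 1` around the origin -/
noncomputable def box (k T : ℕ) : Finset (Fin k → ℤ) := Fintype.piFinset fun _ => Finset.Icc (-(T : ℤ)) T

theorem mem_box {k T : ℕ} {u : Fin k → ℤ} : u ∈ box k T ↔ ∀ a, |u a| ≤ T := by
  simp only [box, Fintype.mem_piFinset, mem_Icc, abs_le]

theorem card_box (k T : ℕ) : (box k T).card = (2 * T + 1) ^ k := by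
  simp only [box, Fintype.card_piFinset, Int.card_Icc, prod_const, card_univ, Fintype.card_fin]
  congr 1
  omega

/-- a set that contains one of the first `J` multiples of every vector has positive density -/
theorem density_of_rays {k J : ℕ} (hJ : 1 ≤ J) (R : Set (Fin k → ℤ)) [DecidablePred (· ∈ R)]
    (hR : ∀ t : Fin k → ℤ, ∃ j : ℕ, 1 ≤ j ∧ j ≤ J ∧ (fun a => (j : ℤ) * t a) ∈ R) (T : ℕ) :
    (2 * T + 1) ^ k ≤ (2 * J) ^ k * J * ((box k T).filter (· ∈ R)).card := by
  classical
  choose j hj1 hj2 hj3 using hR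
  set T' : ℕ := T / J with hT'
  have h1 : ((box k T').card : ℕ) ≤ J * ((box k T).filter (· ∈ R)).card := by
    have hmap : ∀ t ∈ box k T', (fun a => (j t : ℤ) * t a) ∈ (box k T).filter (· ∈ R) := by
      intro t ht
      rw [mem_filter]
      refine ⟨?_, hj3 t⟩
      rw [mem_box] at ht ⊢
      intro a
      rw [abs_mul]
      have e1 : |((j t : ℕ) : ℤ)| ≤ J := by
        rw [Nat.abs_cast]; exact_mod_cast hj2 t
      have e2 : |t a| ≤ T' := ht a
      have e3 : ((T' : ℕ) : ℤ) * J ≤ T := by
        have : T' * J ≤ T := Nat.div_mul_le_self T J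
        exact_mod_cast this
      calc |((j t : ℕ) : ℤ)| * |t a| ≤ J * T' := mul_le_mul e1 e2 (abs_nonneg _) (by positivity)
        _ ≤ T := by linarith
    refine card_le_mul_card_image_of_maps_to hmap J ?_
    intro b _
    -- at most `J` preimages
    have hinj : Set.InjOn (fun t : Fin k → ℤ => j t)
        (((box k T').filter (fun t => (fun a => (j t : ℤ) * t a) = b) : Finset _) :
          Set (Fin k → ℤ)) := by
      intro t1 ht1 t2 ht2 h12
      rw [mem_coe, mem_filter] at ht1 ht2
      have e1 := ht1.2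
      have e2 := ht2.2
      simp only at h12
      funext a
      have e3 : ((j t1 : ℕ) : ℤ) * t1 a = (j t2 : ℤ) * t2 a := congrFun (e1.trans e2.symm) a
      rw [h12] at e3
      have e4 : ((j t2 : ℕ) : ℤ) ≠ 0 := by
        have := hj1 t2
        exact_mod_cast (by omega : j t2 ≠ 0)
      exact mul_left_cancel₀ e4 e3
    have := card_le_card_of_injOn (s := (box k T').filter (fun t => (fun a => (j t : ℤ) * t a) = b))
      (t := Finset.Icc 1 J) (fun t => j t) (fun t _ => by
        rw [mem_coe, mem_Icc]; exact ⟨hj1 t, hj2 t⟩) hinj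
    rwa [Nat.card_Icc, Nat.add_sub_cancel] at this
  rw [card_box] at h1
  have h2 : 2 * T + 1 ≤ 2 * J * (2 * T' + 1) := by
    have := Nat.lt_div_mul_add (a := T) (b := J) (by omega)
    rw [← hT'] at this
    nlinarith
  calc (2 * T + 1) ^ k ≤ (2 * J * (2 * T' + 1)) ^ k := Nat.pow_le_pow_left h2 k
    _ = (2 * J) ^ k * (2 * T' + 1) ^ k := mul_pow _ _ _
    _ ≤ (2 * J) ^ k * (J * ((box k T).filter (· ∈ R)).card) := Nat.mul_le_mul_left _ h1
    _ = (2 * J) ^ k * J * ((box k T).filter (· ∈ R)).card := by ring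

/-- disjoint sets which are dense around one of their points are few -/
theorem few_of_density {k B m : ℕ} (U : Fin m → Set (Fin k → ℤ)) (n : Fin m → Fin k → ℤ)
    (hdis : ∀ i j, i ≠ j → Disjoint (U i) (U j))
    (hd : ∀ i, ∀ T : ℕ, ∃ S : Finset (Fin k → ℤ), (∀ u ∈ S, u ∈ box k T ∧
      (fun a => n i a + u a) ∈ U i) ∧ (2 * T + 1) ^ k ≤ B * S.card) : m ≤ B := by
  classical
  by_contra hcon
  push Not at hcon
  -- a bound for the points
  obtain ⟨R, hR⟩ : ∃ R : ℕ, ∀ i a, |n i a| ≤ R := by
    refine ⟨∑ i, ∑ a, (n i a).natAbs, fun i a => ?_⟩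
    have h1 : (n i a).natAbs ≤ ∑ a, (n i a).natAbs :=
      single_le_sum (f := fun a => (n i a).natAbs) (fun _ _ => Nat.zero_le _) (mem_univ a)
    have h2 : ∑ a, (n i a).natAbs ≤ ∑ i, ∑ a, (n i a).natAbs :=
      single_le_sum (f := fun i => ∑ a, (n i a).natAbs) (fun _ _ => Nat.zero_le _) (mem_univ i)
    rw [Int.abs_eq_natAbs]
    exact_mod_cast h1.trans h2
  have key : ∀ T : ℕ, m * (2 * T + 1) ^ k ≤ B * (2 * (T + R) + 1) ^ k := by
    intro T
    choose S hS1 hS2 using fun i => hd i T
    set S' : Fin m → Finset (Fin k → ℤ) := fun i => (S i).image (fun u a => n i a + u a) with hS'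
    have hc : ∀ i, (S' i).card = (S i).card := by
      intro i
      refine card_image_of_injective _ ?_
      intro u u' h
      funext a
      have h' : n i a + u a = n i a + u' a := congrFun h a
      linarith
    have hsub : (univ.biUnion S') ⊆ box k (T + R) := by
      intro y hy
      rw [mem_biUnion] at hy
      obtain ⟨i, -, hy⟩ := hy
      rw [hS', mem_image] at hy
      obtain ⟨u, hu, rfl⟩ := hy
      have h1 := (hS1 i u hu).1
      rw [mem_box] at h1 ⊢
      intro a
      have h2 := h1 a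
      have h3 := hR i a
      have h4 := abs_add_le (n i a) (u a)
      push_cast
      linarith
    have hpd : ((univ : Finset (Fin m)) : Set (Fin m)).PairwiseDisjoint S' := by
      intro i _ j _ hij
      rw [Function.onFun, Finset.disjoint_left]
      intro y hy hy'
      rw [hS', mem_image] at hy hy'
      obtain ⟨u, hu, rfl⟩ := hy
      obtain ⟨u', hu', he⟩ := hy'
      have h1 := (hS1 i u hu).2
      have h2 := (hS1 j u' hu').2
      rw [he] at h2
      exact (Set.disjoint_left.1 (hdis i j hij)) h1 h2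
    have h1 := card_le_card hsub
    rw [card_biUnion hpd, card_box] at h1
    calc m * (2 * T + 1) ^ k = ∑ _i : Fin m, (2 * T + 1) ^ k := by simp
      _ ≤ ∑ i : Fin m, B * (S i).card := sum_le_sum fun i _ => hS2 i
      _ = B * ∑ i : Fin m, (S' i).card := by
          rw [mul_sum]; exact sum_congr rfl fun i _ => by rw [hc i]
      _ ≤ B * (2 * (T + R) + 1) ^ k := Nat.mul_le_mul_left _ h1
  -- limit
  have hlim : Filter.Tendsto (fun T : ℕ => ((2 * ((T : ℝ) + R) + 1) / (2 * T + 1)) ^ k)
      Filter.atTop (nhds 1) := by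
    have h1 : Filter.Tendsto (fun T : ℕ => (2 * ((T : ℝ) + R) + 1) / (2 * T + 1))
        Filter.atTop (nhds 1) := by
      have h2 : (fun T : ℕ => (2 * ((T : ℝ) + R) + 1) / (2 * T + 1)) =
          fun T : ℕ => 1 + (2 * R) / (2 * (T : ℝ) + 1) := by
        funext T
        have : (2 * (T : ℝ) + 1) ≠ 0 := by positivity
        field_simp
        ring
      rw [h2]
      have h3 : Filter.Tendsto (fun T : ℕ => (2 * (R : ℝ)) / (2 * (T : ℝ) + 1)) Filter.atTop
          (nhds 0) := by
        refine Filter.Tendsto.div_atTop tendsto_const_nhds ?_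
        refine Filter.tendsto_atTop_add_const_right _ _ ?_
        exact Filter.Tendsto.const_mul_atTop (by norm_num) tendsto_natCast_atTop_atTop
      simpa using tendsto_const_nhds.add h3
    simpa using h1.pow k
  have hlim2 : Filter.Tendsto (fun T : ℕ => (B : ℝ) *
      ((2 * ((T : ℝ) + R) + 1) / (2 * T + 1)) ^ k) Filter.atTop (nhds (B * 1)) :=
    hlim.const_mul _
  have hle : ∀ T : ℕ, (m : ℝ) ≤ B * ((2 * ((T : ℝ) + R) + 1) / (2 * T + 1)) ^ k := by
    intro T
    have h1 : (m : ℝ) * (2 * T + 1) ^ k ≤ B * (2 * (T + R) + 1) ^ k := by exact_mod_cast key T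
    have h2 : (0 : ℝ) < (2 * (T : ℝ) + 1) ^ k := by positivity
    rw [div_pow, mul_div_assoc', le_div_iff₀ h2]
    exact h1
  have h3 := ge_of_tendsto' hlim2 hle
  rw [mul_one] at h3
  have h4 : m ≤ B := by exact_mod_cast h3
  omega

end Pool.Agent.K6.H59.GP
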