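import Pool.Agent.K6.H59.GP.Vav

set_option autoImplicit false

/-! # Many progressions in dense subsets of cubes -/

open Finset

namespace Pool.Agent.K6.H59.GP

open Pool.Agent.H602R3.DHJ

theorem second_diff {H : ℕ} [NeZero (2 * H)] {a u v w : ℤ}
    (hu : a ≤ u ∧ u < a + H) (hv : a ≤ v ∧ v < a + H) (hw : a ≤ w ∧ w < a + H)
    (h : (u : ZMod (2 * H)) + w = v + v) : w = v + (v - u) := by
  have h1 : ((u + w - (v + v) : ℤ) : ZMod (2 * H)) = 0 := by
    push_cast; rw [h]; ring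
  rw [ZMod.intCast_zmod_eq_zero_iff_dvd] at h1
  have h2 : u + w - (v + v) = 0 := by
    refine Int.eq_zero_of_abs_lt_dvd h1 ?_
    rw [abs_lt]
    push_cast
    constructor <;> omega
  linarith

theorem pairs (q k : ℕ) (δ : ℝ) (hδ : 0 < δ) : ∃ c : ℝ, 0 < c ∧ ∀ (a : Fin k → ℤ) (H : ℕ), 1 ≤ H →
    ∀ S : Finset (Fin k → ℤ), (∀ n ∈ S, ∀ i, a i ≤ n i ∧ n i < a i + H) →
    δ * (H : ℝ) ^ k ≤ S.card → ∃ T : Finset ((Fin k → ℤ) × (Fin k → ℤ)),
      (∀ p ∈ T, ∀ b : ℕ, b ≤ q → (fun i => p.1 i + b * p.2 i) ∈ S) ∧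
      c * (H : ℝ) ^ (2 * k) ≤ T.card := by
  classical
  obtain ⟨c, hc, hv⟩ := vav (q + 1) (δ / 2 ^ k) (by positivity)
  refine ⟨c, hc, ?_⟩
  intro a H hH S hS hcard
  have : NeZero (2 * H) := ⟨by omega⟩
  set ψ : (Fin k → ℤ) → (Fin k → ZMod (2 * H)) := fun n i => (n i : ZMod (2 * H)) with hψ
  have hinj : Set.InjOn ψ (S : Set (Fin k → ℤ)) := by
    intro n hn n' hn' h
    funext i
    have h1 := congrFun h i
    simp only [hψ] at h1
    rw [ZMod.intCast_eq_intCast_iff_dvd_sub] at h1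
    have h2 := hS n hn i
    have h3 := hS n' hn' i
    have h4 : n' i - n i = 0 := by
      refine Int.eq_zero_of_abs_lt_dvd h1 ?_
      rw [abs_lt]; push_cast
      constructor <;> omega
    linarith
  set A : Finset (Fin k → ZMod (2 * H)) := S.image ψ with hA
  have hAc : A.card = S.card := card_image_of_injOn hinj
  have hXc : Fintype.card (Fin k → ZMod (2 * H)) = (2 * H) ^ k := by
    rw [Fintype.card_fun, ZMod.card, Fintype.card_fin]
  have hHr : (0 : ℝ) < H := by exact_mod_cast hH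
  have hdn : δ / 2 ^ k ≤ dn (A : Set (Fin k → ZMod (2 * H))) := by
    unfold dn av
    have e1 : ∑ x : Fin k → ZMod (2 * H), (A : Set (Fin k → ZMod (2 * H))).indicator (fun _ => (1 : ℝ)) x = A.card := by
      rw [Finset.sum_indicator_eq_sum_filter]
      simp
    rw [e1, hXc, hAc, le_div_iff₀ (by positivity)]
    push_cast
    rw [mul_pow]
    calc δ / 2 ^ k * (2 ^ k * (H : ℝ) ^ k) = δ * (H : ℝ) ^ k := by field_simp
      _ ≤ S.card := hcard
  have hmain := hv (Fin k → ZMod (2 * H)) (A : Set _) hdn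
  -- the progressions in the group
  set T' : Finset ((Fin k → ZMod (2 * H)) × (Fin k → ZMod (2 * H))) := univ.filter (fun p => ∀ b : Fin (q + 2), p.1 + (b : ℕ) • p.2 ∈ A)
    with hT'
  have hT'c : c * (H : ℝ) ^ (2 * k) ≤ T'.card := by
    have e1 : av (fun p : (Fin k → ZMod (2 * H)) × (Fin k → ZMod (2 * H)) => ∏ b : Fin (q + 1 + 1),
        (A : Set (Fin k → ZMod (2 * H))).indicator (fun _ => (1 : ℝ)) (p.1 + (b : ℕ) • p.2)) =
        T'.card / Fintype.card ((Fin k → ZMod (2 * H)) × (Fin k → ZMod (2 * H))) := by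
      unfold av
      congr 1
      rw [hT', card_filter]
      push_cast
      refine sum_congr rfl fun p _ => ?_
      by_cases h : ∀ b : Fin (q + 2), p.1 + (b : ℕ) • p.2 ∈ A
      · rw [if_pos h]
        refine prod_eq_one fun b _ => ?_
        exact Set.indicator_of_mem (by exact_mod_cast h b) _
      · rw [if_neg h]
        push Not at h
        obtain ⟨b, hb⟩ := h
        exact prod_eq_zero (mem_univ b) (Set.indicator_of_notMem (by exact_mod_cast hb) _)
    rw [e1, Fintype.card_prod, hXc, le_div_iff₀ (by positivity)] at hmain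
    refine le_trans ?_ hmain
    push_cast
    have e2 : (H : ℝ) ^ (2 * k) = (H : ℝ) ^ k * (H : ℝ) ^ k := by rw [two_mul, pow_add]
    rw [e2]
    have e3 : (H : ℝ) ^ k ≤ (2 * (H : ℝ)) ^ k := pow_le_pow_left₀ hHr.le (by linarith) k
    have e4 : (0 : ℝ) ≤ (H : ℝ) ^ k := by positivity
    exact mul_le_mul_of_nonneg_left (mul_le_mul e3 e3 e4 (e4.trans e3)) hc.le
  -- lifting
  have hlift : ∀ x : Fin k → ZMod (2 * H), x ∈ A → ∃ n, n ∈ S ∧ ψ n = x := by
    intro x hx
    rw [hA, mem_image] at hx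
    exact hx
  choose! ℓ hℓ1 hℓ2 using hlift
  set F : (Fin k → ZMod (2 * H)) × (Fin k → ZMod (2 * H)) → (Fin k → ℤ) × (Fin k → ℤ) :=
    fun p => (ℓ p.1, fun i => ℓ (p.1 + p.2) i - ℓ p.1 i) with hF
  have hmem : ∀ p ∈ T', ∀ b : ℕ, b ≤ q + 1 → p.1 + b • p.2 ∈ A := by
    intro p hp b hb
    rw [hT', mem_filter] at hp
    exact hp.2 ⟨b, by omega⟩
  have hprog : ∀ p ∈ T', ∀ b : ℕ, b ≤ q + 1 →
      ∀ i, ℓ (p.1 + b • p.2) i = ℓ p.1 i + b * (ℓ (p.1 + p.2) i - ℓ p.1 i) := by
    intro p hp b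
    induction b using Nat.strong_induction_on with
    | _ b ih =>
      intro hb i
      rcases b with _ | _ | b
      · simp
      · simp
      · have h0 := hmem p hp b (by omega)
        have h1 := hmem p hp (b + 1) (by omega)
        have h2 := hmem p hp (b + 2) (by omega)
        have e0 := hS _ (hℓ1 _ h0) i
        have e1 := hS _ (hℓ1 _ h1) i
        have e2 := hS _ (hℓ1 _ h2) i
        have f0 := congrFun (hℓ2 _ h0) i
        have f1 := congrFun (hℓ2 _ h1) i
        have f2 := congrFun (hℓ2 _ h2) i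
        simp only [hψ] at f0 f1 f2
        have hs : ((ℓ (p.1 + b • p.2) i : ℤ) : ZMod (2 * H)) + (ℓ (p.1 + (b + 2) • p.2) i : ℤ) =
            (ℓ (p.1 + (b + 1) • p.2) i : ℤ) + (ℓ (p.1 + (b + 1) • p.2) i : ℤ) := by
          rw [f0, f1, f2]
          simp only [Pi.add_apply, Pi.smul_apply, add_smul, one_smul, two_smul]
          ring
        have h3 := second_diff e0 e1 e2 hs
        rw [h3, ih b (by omega) (by omega) i, ih (b + 1) (by omega) (by omega) i]
        push_cast; ring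
  refine ⟨T'.image F, ?_, ?_⟩
  · intro p hp b hb
    rw [mem_image] at hp
    obtain ⟨r, hr, rfl⟩ := hp
    have h1 := hℓ1 _ (hmem r hr b (by omega))
    convert h1 using 1
    funext i
    rw [hprog r hr b (by omega) i]
  · rw [card_image_of_injOn]
    · exact hT'c
    · intro p hp r hr h
      have hp0 := hmem p hp 0 (by omega)
      have hp1 := hmem p hp 1 (by omega)
      have hr0 := hmem r hr 0 (by omega)
      have hr1 := hmem r hr 1 (by omega)
      rw [zero_smul, add_zero] at hp0 hr0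
      rw [one_smul] at hp1 hr1
      have h1 : ℓ p.1 = ℓ r.1 := congrArg Prod.fst h
      have h2 : p.1 = r.1 := by rw [← hℓ2 _ hp0, ← hℓ2 _ hr0, h1]
      have h3 : ℓ (p.1 + p.2) = ℓ (r.1 + r.2) := by
        funext i
        have h4 : ℓ (p.1 + p.2) i - ℓ p.1 i = ℓ (r.1 + r.2) i - ℓ r.1 i :=
          congrFun (congrArg Prod.snd h) i
        rw [h1] at h4
        linarith
      have h4 : p.1 + p.2 = r.1 + r.2 := by rw [← hℓ2 _ hp1, ← hℓ2 _ hr1, h3]
      rw [h2] at h4
      exact Prod.ext h2 (add_left_cancel h4)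

end Pool.Agent.K6.H59.GP
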