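import Pool.Agent.K6.H59.GP.Mono
import Pool.Agent.K6.H59.GP.Pairs

set_option autoImplicit false

/-! # Few points for most places in a cube -/

namespace Pool.Agent.K6.H59.GP

open Polynomial Finset

theorem dens (k s d e : ℕ) (δ : ℝ) (hδ : 0 < δ) : ∃ B : ℕ,
    ∀ (K : Type) [Field K] [CharZero K] (N : ℕ) (FF : Set (MvPolynomial (Fin (N + 1)) K)),
    (∀ F ∈ FF, F.totalDegree ≤ e) →
    ∀ (G : Fin s → MvPolynomial (Fin k ⊕ Fin s) ℝ), (∀ l, (G l).totalDegree ≤ d) →
    ∀ (v : Fin s → (Fin k → ℤ) → ℤ), IsSys G v →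
    ∀ (P : Fin (N + 1) → MvPolynomial (Fin k ⊕ Fin s) K), (∀ i, (P i).totalDegree ≤ d) →
    ∀ (a : Fin k → ℤ) (H : ℕ), 1 ≤ H →
      ∃ V : Set (Projectivization K (Fin (N + 1) → K)), V.encard ≤ B ∧
        (({n : Fin k → ℤ | (∀ i, a i ≤ n i ∧ n i < a i + H) ∧
          (∀ F ∈ FF, MvPolynomial.eval (val v P n) F = 0) ∧ ¬ OnCurve FF (val v P n) ∧
          ∃ h : val v P n ≠ 0, Projectivization.mk K (val v P n) h ∉ V}.ncard : ℕ) : ℝ) ≤
          δ * (H : ℝ) ^ k := by
  classical
  set E : ℕ := dg d s with hE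
  set L : ℕ := e * (d * E) + E + 2 with hL
  obtain ⟨q, hq⟩ : ∃ q : ℕ, 2 ^ (E + 1) < q := ⟨2 ^ (E + 1) + 1, Nat.lt_succ_self _⟩
  have hq0 : 0 < q := lt_trans (by positivity) hq
  have hqr : (0 : ℝ) < q := by exact_mod_cast hq0
  set C : ℕ := Fintype.card (Fin s → Fin q) with hC
  have hC0 : 0 < C := by
    rw [hC, Fintype.card_fun, Fintype.card_fin, Fintype.card_fin]; positivity
  have hCr : (0 : ℝ) < C := by exact_mod_cast hC0
  obtain ⟨c, hc, hpairs⟩ := pairs L k (δ / C) (by positivity)
  obtain ⟨B, hB⟩ := exists_nat_gt (1 / c)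
  have hB0 : (0 : ℝ) < B := lt_trans (by positivity) hB
  refine ⟨B, ?_⟩
  intro K _ _ N FF hFF G hG v hv P hP a H hH
  -- the points
  set pt : (Fin k → ℤ) → Option (Projectivization K (Fin (N + 1) → K)) := fun n =>
    if h : val v P n ≠ 0 then some (Projectivization.mk K (val v P n) h) else none with hpt
  set I : Finset (Fin k → ℤ) := Fintype.piFinset (fun i => Finset.Ico (a i) (a i + H)) with hI
  have hmemI : ∀ n, n ∈ I ↔ ∀ i, a i ≤ n i ∧ n i < a i + H := by
    intro n
    rw [hI, Fintype.mem_piFinset]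
    simp only [mem_Ico]
  have hIc : I.card = H ^ k := by
    rw [hI, Fintype.card_piFinset]
    simp
  set lev : Projectivization K (Fin (N + 1) → K) → Finset (Fin k → ℤ) := fun Q =>
    I.filter (fun n => pt n = some Q) with hlev
  set V : Set (Projectivization K (Fin (N + 1) → K)) :=
    {Q | (H : ℝ) ^ k < B * (lev Q).card} with hV
  have hdisj : ∀ (W : Finset (Projectivization K (Fin (N + 1) → K))),
      ∑ Q ∈ W, (lev Q).card ≤ H ^ k := by
    intro W
    rw [← hIc, ← card_biUnion]
    · refine card_le_card ?_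
      intro n hn
      rw [mem_biUnion] at hn
      obtain ⟨Q, -, hQ⟩ := hn
      exact (mem_filter.1 hQ).1
    · intro Q _ Q' _ hne
      show Disjoint (lev Q) (lev Q')
      rw [Finset.disjoint_left]
      intro n hn hn'
      rw [hlev, mem_filter] at hn hn'
      apply hne
      have := hn.2.symm.trans hn'.2
      exact Option.some_injective _ this
  refine ⟨V, ?_, ?_⟩
  · -- few rich points
    by_contra hcon
    push Not at hcon
    have h1 : ((B + 1 : ℕ) : ℕ∞) ≤ V.encard := by
      rw [Nat.cast_add, Nat.cast_one]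
      exact Order.add_one_le_of_lt hcon
    obtain ⟨V', hV', hcard⟩ := Set.exists_subset_encard_eq h1
    have hfin : V'.Finite := Set.finite_of_encard_eq_coe hcard
    set W := hfin.toFinset with hW
    have hWc : W.card = B + 1 := by
      have h2 := hfin.encard_eq_coe_toFinset_card
      rw [hcard] at h2
      exact_mod_cast h2.symm
    have h2 := hdisj W
    have h3 : ∑ Q ∈ W, (H : ℝ) ^ k ≤ ∑ Q ∈ W, (B : ℝ) * (lev Q).card := by
      refine sum_le_sum fun Q hQ => ?_
      have : Q ∈ V := hV' (hfin.mem_toFinset.1 hQ)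
      exact le_of_lt this
    rw [sum_const, hWc, nsmul_eq_mul, ← mul_sum] at h3
    have h4 : ((∑ Q ∈ W, (lev Q).card : ℕ) : ℝ) ≤ (H : ℝ) ^ k := by exact_mod_cast h2
    push_cast at h3 h4
    have h5 : (B : ℝ) * ∑ Q ∈ W, ((lev Q).card : ℝ) ≤ B * (H : ℝ) ^ k :=
      mul_le_mul_of_nonneg_left h4 hB0.le
    have h6 : (H : ℝ) ^ k ≤ 0 := by linarith
    -- then there are no rich points
    have h7 : W.Nonempty := by
      rw [← Finset.card_pos, hWc]; omega
    obtain ⟨Q, hQ⟩ := h7
    have h8 : Q ∈ V := hV' (hfin.mem_toFinset.1 hQ)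
    have h9 : (0 : ℝ) < B * (lev Q).card := lt_of_le_of_lt (by positivity) h8
    have h10 : (0 : ℕ) < (lev Q).card := by
      by_contra h
      have h11 : (lev Q).card = 0 := by omega
      rw [h11] at h9
      simp at h9
    have h11 := hdisj {Q}
    rw [sum_singleton] at h11
    have h12 : ((lev Q).card : ℝ) ≤ (H : ℝ) ^ k := by exact_mod_cast h11
    have h13 : (0 : ℝ) < (lev Q).card := by exact_mod_cast h10
    linarith
  · -- the exceptional places
    set S : Finset (Fin k → ℤ) := I.filter (fun n =>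
      (∀ F ∈ FF, MvPolynomial.eval (val v P n) F = 0) ∧ ¬ OnCurve FF (val v P n) ∧
          ∃ h : val v P n ≠ 0, Projectivization.mk K (val v P n) h ∉ V) with hS
    have hSeq : {n : Fin k → ℤ | (∀ i, a i ≤ n i ∧ n i < a i + H) ∧
          (∀ F ∈ FF, MvPolynomial.eval (val v P n) F = 0) ∧ ¬ OnCurve FF (val v P n) ∧
          ∃ h : val v P n ≠ 0, Projectivization.mk K (val v P n) h ∉ V} = (S : Set _) := by
      ext n
      rw [mem_coe, hS, mem_filter, hmemI]
      rfl
    rw [hSeq, Set.ncard_coe_finset]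
    by_contra hcon
    push Not at hcon
    have hHr : (0 : ℝ) < (H : ℝ) := by exact_mod_cast hH
    have hfl : ∀ y : ℝ, ⌊(q : ℝ) * Int.fract y⌋₊ < q := by
      intro y
      rw [Nat.floor_lt (mul_nonneg hqr.le (Int.fract_nonneg _))]
      have := Int.fract_lt_one y
      nlinarith
    set col : (Fin k → ℤ) → (Fin s → Fin q) := fun n l =>
      ⟨⌊(q : ℝ) * Int.fract (arg G v l n)⌋₊, hfl _⟩ with hcol
    obtain ⟨κ, hκ⟩ : ∃ κ, (S.card : ℝ) ≤ C * ((S.filter (fun n => col n = κ)).card : ℝ) := by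
      by_contra hc2
      push Not at hc2
      have h1 : (S.card : ℝ) = ∑ κ : Fin s → Fin q, ((S.filter (fun n => col n = κ)).card : ℝ) := by
        have := Finset.card_eq_sum_card_fiberwise (f := col) (s := S) (t := univ)
          (fun _ _ => mem_univ _)
        exact_mod_cast this
      have hne : (univ : Finset (Fin s → Fin q)).Nonempty := by
        rw [← Finset.card_pos, card_univ]; exact hC0
      have h2 : ∑ κ : Fin s → Fin q, (C : ℝ) * ((S.filter (fun n => col n = κ)).card : ℝ) <
          ∑ κ : Fin s → Fin q, (S.card : ℝ) := sum_lt_sum_of_nonempty hne fun κ _ => hc2 κ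
      rw [← mul_sum, ← h1, sum_const, card_univ, nsmul_eq_mul] at h2
      exact lt_irrefl _ h2
    set S' := S.filter (fun n => col n = κ) with hS'
    obtain ⟨T, hT1, hT2⟩ := hpairs a H hH S' (fun n hn => by
        rw [hS', mem_filter, hS, mem_filter, hmemI] at hn
        exact hn.1.1) (by
        rw [div_mul_eq_mul_div, div_le_iff₀ hCr]
        linarith)
    have hS'mem : ∀ n ∈ S', n ∈ I ∧ (∀ F ∈ FF, MvPolynomial.eval (val v P n) F = 0) ∧
        ¬ OnCurve FF (val v P n) ∧
        (∃ h : val v P n ≠ 0, Projectivization.mk K (val v P n) h ∉ V) ∧ col n = κ := by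
      intro n hn
      rw [hS', mem_filter, hS, mem_filter] at hn
      exact ⟨hn.1.1, hn.1.2.1, hn.1.2.2.1, hn.1.2.2.2, hn.2⟩
    -- equal points
    have hsame : ∀ p ∈ T, pt (fun i => p.1 i + p.2 i) = pt p.1 := by
      intro p hp
      have h0 : p.1 ∈ S' := by
        have := hT1 p hp 0 (by omega)
        simpa using this
      have h1 : (fun i => p.1 i + p.2 i) ∈ S' := by
        have := hT1 p hp 1 (by omega)
        simpa using this
      obtain ⟨-, -, h2, ⟨h3, -⟩, -⟩ := hS'mem _ h0
      obtain ⟨-, -, -, ⟨h4, -⟩, -⟩ := hS'mem _ h1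
      have hcross := mono_curve d e L q (by omega) (by rw [← hE]; omega) hq G hG v hv FF hFF P hP p.1 p.2
        (fun b hb => (hS'mem _ (hT1 p hp b hb.le)).2.1) (fun l => (κ l : ℕ))
        (fun l b hb => by
          have h5 := (hS'mem _ (hT1 p hp b hb.le)).2.2.2.2
          have h6 := congrFun h5 l
          exact congrArg Fin.val h6) h2
      rw [hpt]
      simp only [dif_pos h3, dif_pos h4]
      congr 1
      rw [Projectivization.mk_eq_mk_iff']
      obtain ⟨r, hr⟩ : ∃ r, val v P p.1 r ≠ 0 := by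
        by_contra h
        push Not at h
        exact h3 (funext h)
      refine ⟨val v P (fun i => p.1 i + p.2 i) r / val v P p.1 r, ?_⟩
      funext j
      simp only [Pi.smul_apply, smul_eq_mul]
      have h5 := hcross j r (by omega)
      rw [div_mul_eq_mul_div, div_eq_iff hr, h5]
    -- counting
    have hTcard : (B : ℝ) * T.card ≤ (H : ℝ) ^ k * (H : ℝ) ^ k := by
      have h1 : T.card ≤ ∑ n ∈ S', (I.filter (fun n' => pt n' = pt n)).card := by
        rw [← card_sigma]
        refine card_le_card_of_injOn (fun p => ⟨p.1, fun i => p.1 i + p.2 i⟩) ?_ ?_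
        · intro p hp
          have h0 : p.1 ∈ S' := by
            have := hT1 p hp 0 (by omega)
            simpa using this
          have h1 : (fun i => p.1 i + p.2 i) ∈ S' := by
            have := hT1 p hp 1 (by omega)
            simpa using this
          rw [mem_coe, mem_sigma]
          exact ⟨h0, mem_filter.2 ⟨(hS'mem _ h1).1, hsame p hp⟩⟩
        · intro p _ p' _ h
          simp only [Sigma.mk.injEq] at h
          obtain ⟨h1, h2⟩ := h
          have h2 := eq_of_heq h2
          refine Prod.ext h1 ?_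
          funext i
          have h3 : p.1 i + p.2 i = p'.1 i + p'.2 i := congrFun h2 i
          rw [h1] at h3
          exact add_left_cancel h3
      have h2 : ∀ n ∈ S', (B : ℝ) * ((I.filter (fun n' => pt n' = pt n)).card : ℝ) ≤
          (H : ℝ) ^ k := by
        intro n hn
        obtain ⟨-, -, -, ⟨h3, h4⟩, -⟩ := hS'mem n hn
        have h5 : pt n = some (Projectivization.mk K (val v P n) h3) := by
          rw [hpt]; simp only [dif_pos h3]
        rw [h5]
        exact not_lt.1 h4
      have h3 : (S'.card : ℝ) ≤ (H : ℝ) ^ k := by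
        have h4 : S'.card ≤ I.card := card_le_card fun n hn => (hS'mem n hn).1
        rw [hIc] at h4
        exact_mod_cast h4
      calc (B : ℝ) * T.card
          ≤ B * ((∑ n ∈ S', (I.filter (fun n' => pt n' = pt n)).card : ℕ) : ℝ) :=
            mul_le_mul_of_nonneg_left (by exact_mod_cast h1) hB0.le
        _ = ∑ n ∈ S', (B : ℝ) * ((I.filter (fun n' => pt n' = pt n)).card : ℝ) := by
            push_cast; rw [mul_sum]
        _ ≤ ∑ n ∈ S', (H : ℝ) ^ k := sum_le_sum h2
        _ = S'.card * (H : ℝ) ^ k := by rw [sum_const, nsmul_eq_mul]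
        _ ≤ (H : ℝ) ^ k * (H : ℝ) ^ k := mul_le_mul_of_nonneg_right h3 (by positivity)
    have hpow : (H : ℝ) ^ (2 * k) = (H : ℝ) ^ k * (H : ℝ) ^ k := by rw [two_mul, pow_add]
    rw [hpow] at hT2
    have hpos : (0 : ℝ) < (H : ℝ) ^ k * (H : ℝ) ^ k := by positivity
    have h1 : (B : ℝ) * (c * ((H : ℝ) ^ k * (H : ℝ) ^ k)) ≤ (H : ℝ) ^ k * (H : ℝ) ^ k :=
      (mul_le_mul_of_nonneg_left hT2 hB0.le).trans hTcard
    have h2 : 1 < (B : ℝ) * c := by rwa [div_lt_iff₀ hc] at hB
    have h3 : (H : ℝ) ^ k * (H : ℝ) ^ k < B * c * ((H : ℝ) ^ k * (H : ℝ) ^ k) :=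
      lt_mul_of_one_lt_left hpos h2
    linarith

end Pool.Agent.K6.H59.GP
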