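import Mathlib

set_option autoImplicit false

/-! # Integer valued functions close to a polynomial are polynomials -/

namespace Pool.Agent.K6.H59.GP

open Polynomial Finset

/-- the iterated difference on the naturals -/
theorem dsum (f : ℕ → ℝ) (n y : ℕ) : (fwdDiff 1)^[n] f y =
    ∑ k ∈ range (n + 1), ((-1 : ℝ) ^ (n - k) * n.choose k) * f (y + k) := by
  rw [fwdDiff_iter_eq_sum_shift]
  refine sum_congr rfl fun k _ => ?_
  rw [zsmul_eq_mul]
  push_cast
  simp

theorem diff_const (c : ℝ) (n y : ℕ) (hn : 1 ≤ n) : (fwdDiff 1)^[n] (fun _ : ℕ => c) y = 0 := by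
  obtain ⟨m, rfl⟩ := Nat.exists_eq_add_of_le' hn
  rw [Function.iterate_succ_apply]
  have : (fwdDiff 1 (fun _ : ℕ => c)) = fun _ => 0 := by
    ext x; simp [fwdDiff]
  rw [this]
  rw [dsum]; simp

theorem diff_sub (f g : ℕ → ℝ) (n y : ℕ) :
    (fwdDiff 1)^[n] (fun a => f a - g a) y = (fwdDiff 1)^[n] f y - (fwdDiff 1)^[n] g y := by
  simp only [dsum]
  rw [← sum_sub_distrib]
  exact sum_congr rfl fun k _ => by ring

theorem diff_bound (f : ℕ → ℝ) (θ δ : ℝ) (n y : ℕ) (hn : 1 ≤ n)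
    (h : ∀ k, k ≤ n → |f (y + k) - θ| ≤ δ) : |(fwdDiff 1)^[n] f y| ≤ 2 ^ n * δ := by
  have h1 : (fwdDiff 1)^[n] f y = (fwdDiff 1)^[n] (fun a => f a - θ) y := by
    rw [diff_sub f (fun _ => θ), diff_const θ n y hn, sub_zero]
  rw [h1, dsum]
  refine (abs_sum_le_sum_abs _ _).trans ?_
  have h2 : ∀ k ∈ range (n + 1), |(-1 : ℝ) ^ (n - k) * n.choose k * (f (y + k) - θ)| ≤
      (n.choose k : ℝ) * δ := by
    intro k hk
    rw [abs_mul, abs_mul, abs_pow, abs_neg, abs_one, one_pow, one_mul, Nat.abs_cast]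
    exact mul_le_mul_of_nonneg_left (h k (Nat.lt_succ_iff.1 (mem_range.1 hk))) (Nat.cast_nonneg _)
  refine (sum_le_sum h2).trans ?_
  rw [← sum_mul]
  have : ∑ k ∈ range (n + 1), (n.choose k : ℝ) = 2 ^ n := by
    rw [← Nat.cast_sum, Nat.sum_range_choose]; push_cast; rfl
  rw [this]

theorem diff_int (F : ℕ → ℤ) (n y : ℕ) : ∃ z : ℤ, (fwdDiff 1)^[n] (fun a => (F a : ℝ)) y = z := by
  refine ⟨∑ k ∈ range (n + 1), ((-1 : ℤ) ^ (n - k) * n.choose k) * F (y + k), ?_⟩
  rw [dsum]; push_cast; rfl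

/-- differences of polynomials -/
theorem diff_poly_zero (p : ℝ[X]) (n y : ℕ) (h : p.natDegree < n) :
    (fwdDiff 1)^[n] (fun a : ℕ => p.eval (a : ℝ)) y = 0 := by
  have h1 := congrFun (Polynomial.fwdDiff_iter_eq_zero_of_degree_lt h) (y : ℝ)
  rw [fwdDiff_iter_eq_sum_shift] at h1
  rw [dsum]
  simp only [Pi.zero_apply] at h1
  rw [← h1]
  refine sum_congr rfl fun k _ => ?_
  rw [zsmul_eq_mul]; push_cast; simp

theorem diff_poly_top (p : ℝ[X]) (n y : ℕ) (h : p.natDegree ≤ n) :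
    (fwdDiff 1)^[n] (fun a : ℕ => p.eval (a : ℝ)) y = n.factorial * p.coeff n := by
  rcases h.lt_or_eq with h | h
  · rw [diff_poly_zero p n y h, coeff_eq_zero_of_natDegree_lt h, mul_zero]
  · have h1 := congrFun (Polynomial.fwdDiff_iter_degree_eq_factorial p) (y : ℝ)
    rw [fwdDiff_iter_eq_sum_shift] at h1
    subst h
    rw [dsum]
    have h2 : ∑ k ∈ range (p.natDegree + 1), ((-1 : ℝ) ^ (p.natDegree - k) *
        p.natDegree.choose k) * p.eval (((y + k : ℕ)) : ℝ) = ∑ k ∈ range (p.natDegree + 1),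
        ((-1 : ℤ) ^ (p.natDegree - k) * (p.natDegree.choose k : ℤ)) •
          p.eval ((y : ℝ) + k • (1 : ℝ)) := by
      refine sum_congr rfl fun k _ => ?_
      rw [zsmul_eq_mul]; push_cast; simp
    rw [h2, h1, Pi.smul_apply, smul_eq_mul, coeff_natDegree, mul_comm]
    rfl

/-- an integer valued function close to a polynomial up to a constant is a polynomial -/
theorem near_poly (L w : ℕ) (hw : 1 ≤ w) (hL : w + 1 ≤ L) (F : ℕ → ℤ) (p : ℝ[X])
    (hp : p.natDegree ≤ w) (θ δ : ℝ) (hδ : 2 ^ (w + 1) * δ < 1)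
    (h : ∀ a, a < L → |p.eval (a : ℝ) - F a - θ| ≤ δ) :
    ∃ P : ℝ[X], P.natDegree ≤ w ∧ (∀ a : ℕ, a < L → (F a : ℝ) = P.eval (a : ℝ)) ∧
      |(w.factorial : ℝ) * (p.coeff w - P.coeff w)| ≤ 2 ^ w * δ ∧
      ∃ z : ℤ, (w.factorial : ℝ) * P.coeff w = z := by
  classical
  set P : ℝ[X] := Lagrange.interpolate (range (w + 1)) (fun i : ℕ => (i : ℝ))
    (fun i => (F i : ℝ)) with hP
  have hinj : Set.InjOn (fun i : ℕ => (i : ℝ)) (range (w + 1) : Set ℕ) :=
    fun a _ b _ hab => by simpa using hab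
  have hPd : P.natDegree ≤ w := by
    have h1 := Lagrange.degree_interpolate_lt (s := range (w + 1)) (v := fun i : ℕ => (i : ℝ))
      (fun i => (F i : ℝ)) hinj
    rw [← hP, card_range] at h1
    by_cases h0 : P = 0
    · rw [h0]; simp
    · have := (natDegree_lt_iff_degree_lt h0).2 h1
      omega
  have hPe : ∀ a, a ≤ w → P.eval (a : ℝ) = F a := by
    intro a ha
    exact Lagrange.eval_interpolate_at_node (v := fun i : ℕ => (i : ℝ)) _ hinj
      (mem_range.2 (by omega))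
  have hd0 : 0 ≤ δ := (abs_nonneg _).trans (h 0 (by omega))
  -- higher differences vanish
  have hF : ∀ b, b + w + 1 < L → (fwdDiff 1)^[w + 1] (fun a => (F a : ℝ)) b = 0 := by
    intro b hb
    obtain ⟨z, hz⟩ := diff_int F (w + 1) b
    have h1 : |(fwdDiff 1)^[w + 1] (fun a : ℕ => p.eval (a : ℝ) - F a) b| ≤ 2 ^ (w + 1) * δ :=
      diff_bound _ θ δ (w + 1) b (by omega) (fun k hk => h (b + k) (by omega))
    rw [diff_sub, diff_poly_zero p (w + 1) b (by omega), zero_sub, abs_neg, hz] at h1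
    have h2 : |(z : ℝ)| < 1 := h1.trans_lt hδ
    have h3 : z = 0 := by
      rw [← Int.cast_abs] at h2
      have : |z| < 1 := by exact_mod_cast h2
      exact Int.abs_lt_one_iff.1 this
    rw [hz, h3]; simp
  have hall : ∀ a : ℕ, a < L → (F a : ℝ) = P.eval (a : ℝ) := by
    intro a
    induction a using Nat.strong_induction_on with
    | _ a ih =>
      intro ha
      rcases le_or_gt a w with h1 | h1
      · exact (hPe a h1).symm
      · obtain ⟨b, rfl⟩ : ∃ b, a = b + w + 1 := ⟨a - w - 1, by omega⟩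
        have h2 : (fwdDiff 1)^[w + 1] (fun a : ℕ => (F a : ℝ) - P.eval (a : ℝ)) b = 0 := by
          rw [diff_sub, hF b ha, diff_poly_zero P (w + 1) b (by omega), sub_zero]
        rw [dsum, sum_range_succ] at h2
        have h3 : ∑ k ∈ range (w + 1), ((-1 : ℝ) ^ (w + 1 - k) * (w + 1).choose k) *
            ((F (b + k) : ℝ) - P.eval ((b + k : ℕ) : ℝ)) = 0 := by
          refine sum_eq_zero fun k hk => ?_
          rw [mem_range] at hk
          rw [ih (b + k) (by omega) (by omega), sub_self, mul_zero]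
        rw [h3] at h2
        simp only [Nat.sub_self, pow_zero, Nat.choose_self, Nat.cast_one, mul_one, one_mul,
          zero_add] at h2
        have e1 : b + (w + 1) = b + w + 1 := by ring
        rw [e1] at h2
        linarith
  refine ⟨P, hPd, hall, ?_, ?_⟩
  · have h1 : |(fwdDiff 1)^[w] (fun a : ℕ => p.eval (a : ℝ) - F a) 0| ≤ 2 ^ w * δ :=
      diff_bound _ θ δ w 0 hw (fun k hk => h (0 + k) (by omega))
    have h2 : (fwdDiff 1)^[w] (fun a : ℕ => p.eval (a : ℝ) - F a) 0 =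
        (fwdDiff 1)^[w] (fun a : ℕ => p.eval (a : ℝ) - P.eval (a : ℝ)) 0 := by
      rw [dsum, dsum]
      refine sum_congr rfl fun k hk => ?_
      rw [mem_range] at hk
      rw [hall (0 + k) (by omega)]
    rw [h2, diff_sub, diff_poly_top p w 0 hp, diff_poly_top P w 0 hPd, ← mul_sub] at h1
    exact h1
  · obtain ⟨z, hz⟩ := diff_int F w 0
    refine ⟨z, ?_⟩
    rw [← hz, ← diff_poly_top P w 0 hPd, dsum, dsum]
    refine sum_congr rfl fun k hk => ?_
    rw [mem_range] at hk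
    rw [hall (0 + k) (by omega)]

end Pool.Agent.K6.H59.GP
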