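import Pool.Agent.K6.H59.GP.Sys
import Pool.Agent.K6.H59.GP.Count

set_option autoImplicit false

/-! # Values of generalised polynomials on varieties -/

namespace Pool.Agent.K6.H59.GP

open Polynomial Finset

/-- `z` lies on a nonconstant polynomial curve in the set of zeros of `FF` in projective space -/
def OnCurve {K : Type} [Field K] {N : ℕ} (FF : Set (MvPolynomial (Fin (N + 1)) K))
    (z : Fin (N + 1) → K) : Prop :=
  ∃ q : Fin (N + 1) → K[X], (∀ F ∈ FF, MvPolynomial.aeval q F = 0) ∧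
    (∀ i, (q i).eval 0 = z i) ∧
    ∃ (a b : K) (i j : Fin (N + 1)), (q i).eval a * (q j).eval b ≠ (q j).eval a * (q i).eval b

/-- the vector of the values at `n` -/
noncomputable def val {k s N : ℕ} {K : Type} [Field K] (v : Fin s → (Fin k → ℤ) → ℤ)
    (P : Fin (N + 1) → MvPolynomial (Fin k ⊕ Fin s) K) (n : Fin k → ℤ) : Fin (N + 1) → K :=
  fun i => MvPolynomial.eval (Sum.elim (fun a => (n a : K)) (fun l => (v l n : K))) (P i)

theorem aeval_eval {σ K : Type} [Field K] (φ : σ → K[X]) (H : MvPolynomial σ K) (y : K) :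
    (MvPolynomial.aeval φ H).eval y = MvPolynomial.eval (fun s => (φ s).eval y) H := by
  induction H using MvPolynomial.induction_on with
  | C a => simp
  | add p q hp hq => simp only [map_add, eval_add, hp, hq]
  | mul_X p s' hp => simp only [map_mul, eval_mul, hp, MvPolynomial.aeval_X,
      MvPolynomial.eval_X]

/-- a polynomial that vanishes at the integers `|i| ≤ M` and has degree at most `2 M` vanishes -/
theorem zero_of_ints {K : Type} [Field K] [CharZero K] (p : K[X]) (M : ℕ)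
    (hd : p.natDegree ≤ 2 * M) (h : ∀ i : ℤ, |i| ≤ M → p.eval (i : K) = 0) : p = 0 := by
  classical
  by_contra hp
  have h1 : ((Finset.Icc (-(M : ℤ)) M).image (fun i : ℤ => (i : K))).card ≤ p.natDegree := by
    refine (Finset.card_le_card ?_).trans ((Multiset.toFinset_card_le _).trans (card_roots' p))
    intro y hy
    rw [mem_image] at hy
    obtain ⟨i, hi, rfl⟩ := hy
    rw [Multiset.mem_toFinset, mem_roots hp]
    exact h i (abs_le.2 (mem_Icc.1 hi))
  rw [card_image_of_injective _ Int.cast_injective, Int.card_Icc] at h1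
  omega

/-- **Returns in every direction.** -/
theorem ret (k s d e : ℕ) (ρ : ℝ) (hρ : 0 < ρ) : ∃ J : ℕ, 1 ≤ J ∧
    ∀ (K : Type) [Field K] [CharZero K] (N : ℕ) (FF : Set (MvPolynomial (Fin (N + 1)) K)),
    (∀ F ∈ FF, F.totalDegree ≤ e) →
    ∀ (G : Fin s → MvPolynomial (Fin k ⊕ Fin s) ℝ), (∀ l, (G l).totalDegree ≤ d) →
    ∀ (v : Fin s → (Fin k → ℤ) → ℤ), IsSys G v →
    ∀ (P : Fin (N + 1) → MvPolynomial (Fin k ⊕ Fin s) K), (∀ i, (P i).totalDegree ≤ d) →
      (∀ n, ∀ F ∈ FF, MvPolynomial.eval (val v P n) F = 0) →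
      ∀ n0 : Fin k → ℤ,
      (∀ l, ρ ≤ Int.fract (arg G v l n0) ∧ Int.fract (arg G v l n0) ≤ 1 - ρ) →
      val v P n0 ≠ 0 → ¬ OnCurve FF (val v P n0) →
      ∀ t : Fin k → ℤ, ∃ j : ℕ, 1 ≤ j ∧ j ≤ J ∧ ∃ c : K, c ≠ 0 ∧
        val v P (fun a => n0 a + j * t a) = c • val v P n0 := by
  classical
  set E : ℕ := dg d s with hE
  have hE1 : 1 ≤ E := dg_pos d s
  set M : ℕ := (e + 1) * (d * E) + 1 with hM
  obtain ⟨J, hJ1, hJ⟩ := core k s d M (by omega) ρ hρ
  refine ⟨M * J, Nat.mul_pos (by omega) hJ1, ?_⟩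
  intro K _ _ N FF hFF G hG v hv P hP hx n0 hreg hx0 hcur t
  obtain ⟨j, hj1, hj2, A, hA1, hA2⟩ := hJ G hG v hv n0 t hreg
  -- the curve
  set φ : Fin k ⊕ Fin s → K[X] := Sum.elim (fun a => C (n0 a : K) + C ((j : K) * (t a : K)) * X)
    (fun l => (A l).map (Int.castRingHom K)) with hφ
  set q : Fin (N + 1) → K[X] := fun i => MvPolynomial.aeval φ (P i) with hq
  have hφd : ∀ s', (φ s').natDegree ≤ E := by
    rintro (a | l)
    · refine le_trans ?_ hE1
      refine (natDegree_add_le _ _).trans (max_le (by simp) ?_)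
      exact (natDegree_C_mul_le _ _).trans (by simp)
    · exact natDegree_map_le.trans (hA1 l)
  have hqd : ∀ i, (q i).natDegree ≤ d * E := fun i =>
    MvPolynomial.aeval_natDegree_le (P i) (hP i) φ hφd
  have hqe : ∀ i : ℤ, |i| ≤ M → (fun r => (q r).eval (i : K)) =
      val v P (fun a => n0 a + i * (j * t a)) := by
    intro i hi
    funext r
    rw [hq]
    simp only
    rw [aeval_eval]
    unfold val
    congr 2
    funext s'
    rcases s' with a | l
    · simp only [hφ, Sum.elim_inl, eval_add, eval_C, eval_mul, eval_X]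
      push_cast; ring
    · simp only [hφ, Sum.elim_inr]
      rw [hA2 i hi l, eval_map, eval₂_at_intCast]
      simp
  have hFq : ∀ F ∈ FF, MvPolynomial.aeval q F = 0 := by
    intro F hF
    refine zero_of_ints _ M ?_ ?_
    · refine (MvPolynomial.aeval_natDegree_le F (hFF F hF) q hqd).trans ?_
      rw [hM]; nlinarith
    · intro i hi
      rw [aeval_eval, hqe i hi]
      exact hx _ F hF
  have hq0 : ∀ i, (q i).eval 0 = val v P n0 i := by
    intro i
    have h1 := congrFun (hqe 0 (by simp)) i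
    simp only [Int.cast_zero] at h1
    rw [h1]
    congr 1
    funext a; simp
  have hprop : ∀ (a b : K) (i j : Fin (N + 1)),
      (q i).eval a * (q j).eval b = (q j).eval a * (q i).eval b := by
    intro a b i j
    by_contra hne
    exact hcur ⟨q, hFq, hq0, a, b, i, j, hne⟩
  obtain ⟨r, hr⟩ : ∃ r, val v P n0 r ≠ 0 := by
    by_contra h
    push Not at h
    exact hx0 (funext h)
  -- a nonzero value
  have hex : ∃ i : ℕ, 1 ≤ i ∧ i ≤ M ∧ (q r).eval (i : K) ≠ 0 := by
    by_contra hcon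
    push Not at hcon
    have hz : q r = 0 := by
      by_contra hne
      have h1 : ((Finset.Icc 1 M).image (fun i : ℕ => (i : K))).card ≤ (q r).natDegree := by
        refine (Finset.card_le_card ?_).trans
          ((Multiset.toFinset_card_le _).trans (card_roots' (q r)))
        intro y hy
        rw [mem_image] at hy
        obtain ⟨i, hi, rfl⟩ := hy
        rw [mem_Icc] at hi
        rw [Multiset.mem_toFinset, mem_roots hne]
        exact hcon i hi.1 hi.2
      rw [card_image_of_injective _ Nat.cast_injective, Nat.card_Icc] at h1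
      have h2 := hqd r
      have h3 : d * E ≤ (e + 1) * (d * E) := Nat.le_mul_of_pos_left _ (by omega)
      omega
    apply hr
    rw [← hq0 r, hz, eval_zero]
  obtain ⟨i, hi1, hi2, hi3⟩ := hex
  refine ⟨i * j, Nat.mul_pos hi1 hj1, Nat.mul_le_mul hi2 hj2,
    (q r).eval (i : K) / val v P n0 r, div_ne_zero hi3 hr, ?_⟩
  have h1 := hqe (i : ℤ) (by rw [Nat.abs_cast]; exact_mod_cast hi2)
  have h2 : (fun a => n0 a + ((i * j : ℕ) : ℤ) * t a) =
      (fun a => n0 a + (i : ℤ) * ((j : ℤ) * t a)) := by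
    funext a; push_cast; ring
  rw [h2, ← h1]
  funext r'
  simp only [Pi.smul_apply, smul_eq_mul, Int.cast_natCast]
  have h3 := hprop (i : K) 0 r' r
  rw [hq0, hq0] at h3
  rw [div_mul_eq_mul_div, eq_div_iff hr, h3]

/-- the returns to the point -/
def Ret {k s N : ℕ} {K : Type} [Field K] (v : Fin s → (Fin k → ℤ) → ℤ)
    (P : Fin (N + 1) → MvPolynomial (Fin k ⊕ Fin s) K) (n0 : Fin k → ℤ) : Set (Fin k → ℤ) :=
  {u | ∃ c : K, c ≠ 0 ∧ val v P (fun a => n0 a + u a) = c • val v P n0}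

/-- **Few points at regular places, each with positive density.** -/
theorem main (k s d e : ℕ) (ρ : ℝ) (hρ : 0 < ρ) : ∃ B : ℕ,
    ∀ (K : Type) [Field K] [CharZero K] (N : ℕ) (FF : Set (MvPolynomial (Fin (N + 1)) K)),
    (∀ F ∈ FF, F.totalDegree ≤ e) →
    ∀ (G : Fin s → MvPolynomial (Fin k ⊕ Fin s) ℝ), (∀ l, (G l).totalDegree ≤ d) →
    ∀ (v : Fin s → (Fin k → ℤ) → ℤ), IsSys G v →
    ∀ (P : Fin (N + 1) → MvPolynomial (Fin k ⊕ Fin s) K), (∀ i, (P i).totalDegree ≤ d) →
      (∀ n, ∀ F ∈ FF, MvPolynomial.eval (val v P n) F = 0) →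
      (∀ n0 : Fin k → ℤ,
        (∀ l, ρ ≤ Int.fract (arg G v l n0) ∧ Int.fract (arg G v l n0) ≤ 1 - ρ) →
        val v P n0 ≠ 0 → ¬ OnCurve FF (val v P n0) →
        ∀ T : ℕ, (2 * T + 1) ^ k ≤ B * {u : Fin k → ℤ | (∀ a, |u a| ≤ T) ∧
          ∃ c : K, c ≠ 0 ∧ val v P (fun a => n0 a + u a) = c • val v P n0}.ncard) ∧
      {Q : Projectivization K (Fin (N + 1) → K) | ∃ (n : Fin k → ℤ) (h : val v P n ≠ 0),
        (∀ l, ρ ≤ Int.fract (arg G v l n) ∧ Int.fract (arg G v l n) ≤ 1 - ρ) ∧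
        ¬ OnCurve FF (val v P n) ∧ Q = Projectivization.mk K (val v P n) h}.encard ≤ B := by
  classical
  obtain ⟨J, hJ1, hJ⟩ := ret k s d e ρ hρ
  set B : ℕ := (2 * J) ^ k * J with hB
  refine ⟨B, ?_⟩
  intro K _ _ N FF hFF G hG v hv P hP hx
  have hret := hJ K N FF hFF G hG v hv P hP hx
  have hdens : ∀ n0 : Fin k → ℤ,
        (∀ l, ρ ≤ Int.fract (arg G v l n0) ∧ Int.fract (arg G v l n0) ≤ 1 - ρ) →
        val v P n0 ≠ 0 → ¬ OnCurve FF (val v P n0) →
        ∀ T : ℕ, (2 * T + 1) ^ k ≤ B * ((box k T).filter (· ∈ Ret v P n0)).card := by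
    intro n0 h1 h2 h3 T
    exact density_of_rays hJ1 (Ret v P n0) (fun t => hret n0 h1 h2 h3 t) T
  constructor
  · intro n0 h1 h2 h3 T
    have h4 := hdens n0 h1 h2 h3 T
    convert h4 using 2
    rw [← Set.ncard_coe_finset]
    congr 1
    ext u
    simp only [coe_filter, mem_box]
    rfl
  · by_contra hcon
    push Not at hcon
    set S := {Q : Projectivization K (Fin (N + 1) → K) | ∃ (n : Fin k → ℤ) (h : val v P n ≠ 0),
        (∀ l, ρ ≤ Int.fract (arg G v l n) ∧ Int.fract (arg G v l n) ≤ 1 - ρ) ∧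
        ¬ OnCurve FF (val v P n) ∧ Q = Projectivization.mk K (val v P n) h} with hS
    have h1 : ((B + 1 : ℕ) : ℕ∞) ≤ S.encard := by
      rw [Nat.cast_add, Nat.cast_one]
      exact Order.add_one_le_of_lt hcon
    obtain ⟨S', hS', hcard⟩ := Set.exists_subset_encard_eq h1
    have hfin : S'.Finite := Set.finite_of_encard_eq_coe hcard
    have hn : S'.ncard = B + 1 := by
      have h2 := hfin.cast_ncard_eq
      rw [hcard] at h2
      exact_mod_cast h2
    have : Fintype S' := hfin.fintype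
    have hcard2 : Fintype.card S' = B + 1 := by
      rw [← Set.toFinset_card, ← Set.ncard_eq_toFinset_card']; exact hn
    set eq := Fintype.equivFinOfCardEq hcard2 with heq
    have hmem : ∀ i : Fin (B + 1), ((eq.symm i : S') : Projectivization K _) ∈ S :=
      fun i => hS' (eq.symm i).2
    choose n hn0 hn1 hn2 hn3 using hmem
    have := few_of_density (k := k) (B := B) (m := B + 1)
      (fun i => {y | ∃ c : K, c ≠ 0 ∧ val v P y = c • val v P (n i)}) n ?_ ?_
    · omega
    · intro i j hij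
      rw [Set.disjoint_left]
      rintro y ⟨c, hc, h3⟩ ⟨c', hc', h4⟩
      apply hij
      have h5 : ((eq.symm i : S') : Projectivization K (Fin (N + 1) → K)) = eq.symm j := by
        rw [hn3 i, hn3 j, Projectivization.mk_eq_mk_iff']
        refine ⟨c⁻¹ * c', ?_⟩
        rw [mul_smul, ← h4, h3, smul_smul, inv_mul_cancel₀ hc, one_smul]
      exact eq.symm.injective (Subtype.ext h5)
    · intro i T
      refine ⟨(box k T).filter (· ∈ Ret v P (n i)), ?_, hdens (n i) (hn1 i) (hn0 i) (hn2 i) T⟩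
      intro u hu
      rw [mem_filter] at hu
      exact ⟨hu.1, hu.2⟩

end Pool.Agent.K6.H59.GP
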