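import Pool.Agent.K6.H59.GP.Main

set_option autoImplicit false

/-! # Nested integral parts along monochromatic progressions -/

namespace Pool.Agent.K6.H59.GP

open Polynomial Finset

/-- rational form of `near_poly` -/
theorem near_polyQ (L w : ℕ) (hw : 1 ≤ w) (hL : w + 1 ≤ L) (F : ℕ → ℤ) (p : ℝ[X])
    (hp : p.natDegree ≤ w) (θ δ : ℝ) (hδ : 2 ^ (w + 1) * δ < 1)
    (h : ∀ a, a < L → |p.eval (a : ℝ) - F a - θ| ≤ δ) :
    ∃ P : ℚ[X], P.natDegree ≤ w ∧ ∀ a : ℕ, a < L → (F a : ℚ) = P.eval (a : ℚ) := by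
  classical
  obtain ⟨R, hR1, hR2, -⟩ := near_poly L w hw hL F p hp θ δ hδ h
  set P : ℚ[X] := Lagrange.interpolate (range (w + 1)) (fun i : ℕ => (i : ℚ))
    (fun i => (F i : ℚ)) with hP
  have hinj : Set.InjOn (fun i : ℕ => (i : ℚ)) (range (w + 1) : Set ℕ) :=
    fun a _ b _ hab => by simpa using hab
  have hPd : P.natDegree ≤ w := by
    have h1 := Lagrange.degree_interpolate_lt (s := range (w + 1)) (v := fun i : ℕ => (i : ℚ))
      (fun i => (F i : ℚ)) hinj
    rw [← hP, card_range] at h1
    by_cases h0 : P = 0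
    · rw [h0]; simp
    · have := (natDegree_lt_iff_degree_lt h0).2 h1
      omega
  have hPe : ∀ a, a ≤ w → P.eval (a : ℚ) = F a := by
    intro a ha
    exact Lagrange.eval_interpolate_at_node (v := fun i : ℕ => (i : ℚ)) _ hinj
      (mem_range.2 (by omega))
  -- uniqueness
  have hev : ∀ a : ℕ, (P.map (algebraMap ℚ ℝ)).eval (a : ℝ) = ((P.eval (a : ℚ) : ℚ) : ℝ) := by
    intro a
    rw [eval_map, ← eq_ratCast (algebraMap ℚ ℝ), ← eval₂_at_natCast]
  have heq : P.map (algebraMap ℚ ℝ) = R := by
    have h0 : P.map (algebraMap ℚ ℝ) - R = 0 := by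
      by_contra hne
      have h1 : ((range (w + 1)).image (fun i : ℕ => (i : ℝ))).card ≤
          (P.map (algebraMap ℚ ℝ) - R).natDegree := by
        refine (Finset.card_le_card ?_).trans
          ((Multiset.toFinset_card_le _).trans (card_roots' _))
        intro y hy
        rw [mem_image] at hy
        obtain ⟨i, hi, rfl⟩ := hy
        rw [mem_range] at hi
        rw [Multiset.mem_toFinset, mem_roots hne, IsRoot, eval_sub, hev, hPe i (by omega),
          ← hR2 i (by omega)]
        simp
      rw [card_image_of_injective _ Nat.cast_injective, card_range] at h1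
      have h2 : (P.map (algebraMap ℚ ℝ) - R).natDegree ≤ w :=
        (natDegree_sub_le _ _).trans (max_le (natDegree_map_le.trans hPd) hR1)
      omega
    exact sub_eq_zero.1 h0
  refine ⟨P, hPd, fun a ha => ?_⟩
  have h1 := hR2 a ha
  rw [← heq, hev] at h1
  exact_mod_cast h1

variable {k s : ℕ}

/-- along a progression on which the arguments stay in one cell modulo one the integral parts are
polynomials -/
theorem mono_poly (d L q : ℕ) (hL : dg d s + 1 ≤ L) (hq : 2 ^ (dg d s + 1) < q)
    (G : Fin s → MvPolynomial (Fin k ⊕ Fin s) ℝ) (hG : ∀ l, (G l).totalDegree ≤ d)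
    (v : Fin s → (Fin k → ℤ) → ℤ) (hv : IsSys G v) (n t : Fin k → ℤ) (κ : Fin s → ℕ)
    (hκ : ∀ l, ∀ a : ℕ, a < L →
      ⌊(q : ℝ) * Int.fract (arg G v l (fun i => n i + a * t i))⌋₊ = κ l) :
    ∀ l : Fin s, ∃ P : ℚ[X], P.natDegree ≤ dg d l ∧
      ∀ a : ℕ, a < L → (v l (fun i => n i + a * t i) : ℚ) = P.eval (a : ℚ) := by
  classical
  have hq0 : (0 : ℝ) < q := by
    have : 0 < q := lt_trans (by positivity) hq
    exact_mod_cast this
  intro l
  induction l using WellFoundedLT.induction with
  | _ l ih =>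
  choose! R hR1 hR2 using ih
  set φ : Fin k ⊕ Fin s → ℝ[X] := Sum.elim (fun i => C (n i : ℝ) + C (t i : ℝ) * X)
    (fun l' => if l' < l then (R l').map (algebraMap ℚ ℝ) else 0) with hφ
  set p : ℝ[X] := MvPolynomial.aeval φ (G l) with hp
  have hlin : ∀ a, (C (n a : ℝ) + C (t a : ℝ) * X : ℝ[X]).natDegree ≤ 1 := by
    intro a
    refine (natDegree_add_le _ _).trans (max_le (by simp) ?_)
    exact (natDegree_C_mul_le _ _).trans (by simp)
  have hpd : p.natDegree ≤ dg d l := by
    obtain ⟨l, hl⟩ := l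
    rcases l with _ | l
    · refine (MvPolynomial.aeval_natDegree_le (n := 1) (G ⟨0, hl⟩) (hG _) _ ?_).trans ?_
      · rintro (a | l')
        · exact hlin a
        · have : ¬ l' < ⟨0, hl⟩ := by simp [Fin.lt_def]
          simp [hφ, this]
      · simp [dg]
    · refine (MvPolynomial.aeval_natDegree_le (n := dg d l) (G ⟨l + 1, hl⟩) (hG _) _ ?_).trans ?_
      · rintro (a | l')
        · exact (hlin a).trans (dg_pos d l)
        · by_cases h : l' < ⟨l + 1, hl⟩
          · simp only [hφ, Sum.elim_inr, if_pos h]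
            refine natDegree_map_le.trans ((hR1 l' h).trans (dg_mono d ?_))
            rw [Fin.lt_def] at h
            simp only at h
            omega
          · simp [hφ, h]
      · exact dg_step d (by simp)
  have hpe : ∀ a : ℕ, a < L → p.eval (a : ℝ) = arg G v l (fun i => n i + a * t i) := by
    intro a ha
    rw [hp, aeval_eval]
    unfold arg
    congr 2
    funext s'
    rcases s' with i | l'
    · simp only [hφ, Sum.elim_inl, eval_add, eval_C, eval_mul, eval_X]
      push_cast; ring
    · by_cases h : l' < l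
      · simp only [hφ, Sum.elim_inr, if_pos h]
        rw [eval_map, eval₂_at_natCast, ← hR2 l' h a ha]
        simp
      · simp only [hφ, Sum.elim_inr, if_neg h, eval_zero]
  have hdl : dg d l ≤ dg d s := dg_mono d l.2.le
  refine near_polyQ L (dg d l) (dg_pos d l) (by omega)
    (fun a => v l (fun i => n i + a * t i)) p hpd ((κ l : ℝ) / q) (1 / q) ?_ ?_
  · rw [mul_one_div, div_lt_one hq0]
    have : 2 ^ (dg d l + 1) < q := lt_of_le_of_lt (Nat.pow_le_pow_right (by norm_num) (by omega)) hq
    exact_mod_cast this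
  · intro a ha
    rw [hpe a ha, hv l]
    have h1 := hκ l a ha
    set y := arg G v l (fun i => n i + a * t i) with hy
    have h2 : 0 ≤ (q : ℝ) * Int.fract y := mul_nonneg hq0.le (Int.fract_nonneg _)
    have h3 := Nat.floor_le h2
    have h4 := Nat.lt_floor_add_one ((q : ℝ) * Int.fract y)
    rw [h1] at h3 h4
    have h6 : (κ l : ℝ) / q ≤ Int.fract y := by
      rw [div_le_iff₀ hq0]; linarith
    have h7 : Int.fract y < ((κ l : ℝ) + 1) / q := by
      rw [lt_div_iff₀ hq0]; linarith
    rw [add_div] at h7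
    have h8 : y - (⌊y⌋ : ℝ) = Int.fract y := rfl
    change |y - (⌊y⌋ : ℝ) - (κ l : ℝ) / q| ≤ 1 / q
    rw [h8, abs_le]
    constructor
    · have : (0 : ℝ) ≤ 1 / q := by positivity
      linarith
    · linarith

/-- a long progression in one cell gives equal points or a curve -/
theorem mono_curve (d e L q : ℕ) (hL : dg d s + 1 ≤ L) (hL2 : e * (d * dg d s) + 1 ≤ L)
    (hq : 2 ^ (dg d s + 1) < q)
    (G : Fin s → MvPolynomial (Fin k ⊕ Fin s) ℝ) (hG : ∀ l, (G l).totalDegree ≤ d)
    (v : Fin s → (Fin k → ℤ) → ℤ) (hv : IsSys G v)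
    {K : Type} [Field K] [CharZero K] {N : ℕ} (FF : Set (MvPolynomial (Fin (N + 1)) K))
    (hFF : ∀ F ∈ FF, F.totalDegree ≤ e)
    (P : Fin (N + 1) → MvPolynomial (Fin k ⊕ Fin s) K) (hP : ∀ i, (P i).totalDegree ≤ d)
    (n t : Fin k → ℤ)
    (hx : ∀ a : ℕ, a < L → ∀ F ∈ FF, MvPolynomial.eval (val v P (fun i => n i + a * t i)) F = 0)
    (κ : Fin s → ℕ) (hκ : ∀ l, ∀ a : ℕ, a < L →
      ⌊(q : ℝ) * Int.fract (arg G v l (fun i => n i + a * t i))⌋₊ = κ l)
    (hcur : ¬ OnCurve FF (val v P n)) (i j : Fin (N + 1)) (hL1 : 1 < L) :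
    val v P (fun i => n i + t i) i * val v P n j = val v P (fun i => n i + t i) j * val v P n i := by
  classical
  have h1 := mono_poly d L q hL hq G hG v hv n t κ hκ
  choose A hA1 hA2 using h1
  set E : ℕ := dg d s with hE
  have hE1 : 1 ≤ E := dg_pos d s
  set φ : Fin k ⊕ Fin s → K[X] := Sum.elim (fun a => C (n a : K) + C (t a : K) * X)
    (fun l => (A l).map (algebraMap ℚ K)) with hφ
  set Q : Fin (N + 1) → K[X] := fun i => MvPolynomial.aeval φ (P i) with hQ
  have hφd : ∀ s', (φ s').natDegree ≤ E := by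
    rintro (a | l)
    · refine le_trans ?_ hE1
      refine (natDegree_add_le _ _).trans (max_le (by simp) ?_)
      exact (natDegree_C_mul_le _ _).trans (by simp)
    · exact natDegree_map_le.trans ((hA1 l).trans (dg_mono d l.2.le))
  have hQd : ∀ i, (Q i).natDegree ≤ d * E := fun i =>
    MvPolynomial.aeval_natDegree_le (P i) (hP i) φ hφd
  have hQe : ∀ a : ℕ, a < L → (fun r => (Q r).eval (a : K)) =
      val v P (fun i => n i + a * t i) := by
    intro a ha
    funext r
    rw [hQ]
    simp only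
    rw [aeval_eval]
    unfold val
    congr 2
    funext s'
    rcases s' with i | l
    · simp only [hφ, Sum.elim_inl, eval_add, eval_C, eval_mul, eval_X]
      push_cast; ring
    · simp only [hφ, Sum.elim_inr]
      rw [eval_map, eval₂_at_natCast, ← hA2 l a ha]
      simp
  have hFq : ∀ F ∈ FF, MvPolynomial.aeval Q F = 0 := by
    intro F hF
    by_contra hne
    have h1 : ((range L).image (fun i : ℕ => (i : K))).card ≤
        (MvPolynomial.aeval Q F).natDegree := by
      refine (Finset.card_le_card ?_).trans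
        ((Multiset.toFinset_card_le _).trans (card_roots' _))
      intro y hy
      rw [mem_image] at hy
      obtain ⟨a, ha, rfl⟩ := hy
      rw [mem_range] at ha
      rw [Multiset.mem_toFinset, mem_roots hne, IsRoot, aeval_eval, hQe a ha]
      exact hx a ha F hF
    rw [card_image_of_injective _ Nat.cast_injective, card_range] at h1
    have h2 := MvPolynomial.aeval_natDegree_le F (hFF F hF) Q hQd
    omega
  have hQ0 : ∀ i, (Q i).eval 0 = val v P n i := by
    intro i
    have h1 := congrFun (hQe 0 (by omega)) i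
    simp only [Nat.cast_zero, zero_mul, add_zero] at h1
    exact h1
  have hQ1 : ∀ i, (Q i).eval 1 = val v P (fun i => n i + t i) i := by
    intro i
    have h1 := congrFun (hQe 1 hL1) i
    simp only [Nat.cast_one, one_mul] at h1
    exact h1
  by_contra hne
  refine hcur ⟨Q, hFq, hQ0, 1, 0, i, j, ?_⟩
  rw [hQ0, hQ0, hQ1, hQ1]
  exact hne

end Pool.Agent.K6.H59.GP
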