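import Pool.Agent.K6.H59.GP.Comp

set_option autoImplicit false

/-! # Systems of nested integral parts along progressions through a point -/

namespace Pool.Agent.K6.H59.GP

open Polynomial Finset

/-- uniform van der Waerden theorem -/
theorem vdw (L : ℕ) (hL : 1 ≤ L) (κ : Type) [Finite κ] : ∃ W : ℕ, ∀ C : ℤ → κ,
    ∃ (u0 : ℤ) (j : ℕ), 1 ≤ j ∧ j ≤ W ∧ ∀ a : ℕ, a < L → C (u0 + a * j) = C u0 := by
  classical
  obtain ⟨ι, _, hι⟩ := Combinatorics.Line.exists_mono_in_high_dimension (Fin L) κ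
  refine ⟨Fintype.card ι, fun C => ?_⟩
  obtain ⟨l, c, hl⟩ := hι (fun f => C (∑ i, ((f i : ℕ) : ℤ)))
  set S : Finset ι := univ.filter (fun i => l.idxFun i = none) with hS
  set b : ℤ := ∑ i ∈ univ.filter (fun i => ¬ l.idxFun i = none),
    (((l.idxFun i).getD ⟨0, hL⟩ : Fin L) : ℕ) with hb
  have hsum : ∀ x : Fin L, ∑ i, ((l x i : ℕ) : ℤ) = b + (x : ℕ) * S.card := by
    intro x
    rw [← Finset.sum_filter_add_sum_filter_not univ (fun i => l.idxFun i = none)]
    have h1 : ∑ i ∈ univ.filter (fun i => l.idxFun i = none), ((l x i : ℕ) : ℤ) =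
        (x : ℕ) * S.card := by
      rw [Finset.sum_congr rfl (g := fun _ => (((x : Fin L) : ℕ) : ℤ))]
      · rw [sum_const, nsmul_eq_mul, mul_comm]
      · intro i hi
        rw [mem_filter] at hi
        rw [l.apply_none x i hi.2]
    have h2 : ∑ i ∈ univ.filter (fun i => ¬ l.idxFun i = none), ((l x i : ℕ) : ℤ) = b := by
      refine Finset.sum_congr rfl fun i hi => ?_
      rw [mem_filter] at hi
      obtain ⟨y, hy⟩ := Option.ne_none_iff_exists'.1 hi.2
      rw [l.apply_some hy, hy]; rfl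
    rw [h1, h2]; ring
  refine ⟨b, S.card, ?_, ?_, ?_⟩
  · obtain ⟨i, hi⟩ := l.proper
    exact card_pos.2 ⟨i, by rw [hS, mem_filter]; exact ⟨mem_univ _, hi⟩⟩
  · exact card_le_univ S
  · intro a ha
    have h1 := hl ⟨a, ha⟩
    have h2 := hl ⟨0, hL⟩
    beta_reduce at h1 h2
    rw [hsum] at h1 h2
    simp only [Nat.cast_zero, zero_mul, add_zero] at h2
    rw [h2]; exact h1

variable {k s : ℕ}

/-- degree bounds -/
def dg (d : ℕ) (l : ℕ) : ℕ := (d + 1) ^ (l + 1)

theorem dg_mono (d : ℕ) {l l' : ℕ} (h : l ≤ l') : dg d l ≤ dg d l' :=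
  Nat.pow_le_pow_right (by omega) (by omega)

theorem dg_pos (d l : ℕ) : 1 ≤ dg d l := Nat.one_le_pow _ _ (by omega)

theorem dg_step (d : ℕ) {l l' : ℕ} (h : l' < l) : d * dg d l' ≤ dg d l := by
  have h1 : dg d (l' + 1) ≤ dg d l := dg_mono d (by omega)
  refine le_trans ?_ h1
  unfold dg
  rw [pow_succ (d + 1) (l' + 1), mul_comm]
  exact Nat.mul_le_mul_left _ (by omega)

/-- the polynomials attached to the direction `t` at the point `n0` and the parameter `u` -/
noncomputable def Az (d : ℕ) (G : Fin s → MvPolynomial (Fin k ⊕ Fin s) ℝ) (n0 t : Fin k → ℤ)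
    (u : ℤ) (l : Fin s) : ℤ[X] :=
  rnd (dg d l) (MvPolynomial.aeval (Sum.elim
    (fun a => (C (n0 a : ℝ) + C ((t a : ℝ) * u) * X : ℝ[X]))
    (fun l' => if _h : l' < l then (Az d G n0 t u l').map (Int.castRingHom ℝ) else 0)) (G l))
termination_by l.val
decreasing_by exact _h

/-- the arguments before rounding -/
noncomputable def Ar (d : ℕ) (G : Fin s → MvPolynomial (Fin k ⊕ Fin s) ℝ) (n0 t : Fin k → ℤ)
    (u : ℤ) (l : Fin s) : ℝ[X] :=
  MvPolynomial.aeval (Sum.elim
    (fun a => (C (n0 a : ℝ) + C ((t a : ℝ) * u) * X : ℝ[X]))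
    (fun l' => if l' < l then (Az d G n0 t u l').map (Int.castRingHom ℝ) else 0)) (G l)

theorem Az_eq (d : ℕ) (G : Fin s → MvPolynomial (Fin k ⊕ Fin s) ℝ) (n0 t : Fin k → ℤ)
    (u : ℤ) (l : Fin s) : Az d G n0 t u l = rnd (dg d l) (Ar d G n0 t u l) := by
  rw [Az, Ar]
  congr 3

theorem Az_natDegree (d : ℕ) (G : Fin s → MvPolynomial (Fin k ⊕ Fin s) ℝ) (n0 t : Fin k → ℤ)
    (u : ℤ) (l : Fin s) : (Az d G n0 t u l).natDegree ≤ dg d l := by
  rw [Az_eq]; exact rnd_natDegree _ _

theorem Ar_natDegree (d : ℕ) (G : Fin s → MvPolynomial (Fin k ⊕ Fin s) ℝ)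
    (hG : ∀ l, (G l).totalDegree ≤ d) (n0 t : Fin k → ℤ)
    (u : ℤ) (l : Fin s) : (Ar d G n0 t u l).natDegree ≤ dg d l := by
  have hlin : ∀ a, (C (n0 a : ℝ) + C ((t a : ℝ) * u) * X : ℝ[X]).natDegree ≤ 1 := by
    intro a
    refine (natDegree_add_le _ _).trans (max_le (by simp) ?_)
    exact (natDegree_C_mul_le _ _).trans (by simp)
  obtain ⟨l, hl⟩ := l
  rcases l with _ | l
  · refine (MvPolynomial.aeval_natDegree_le (n := 1) (G ⟨0, hl⟩) (hG _) _ ?_).trans ?_
    · rintro (a | l')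
      · exact hlin a
      · have : ¬ l' < ⟨0, hl⟩ := by simp [Fin.lt_def]
        simp [this]
    · simp [dg]
  · refine (MvPolynomial.aeval_natDegree_le (n := dg d l) (G ⟨l + 1, hl⟩) (hG _) _ ?_).trans ?_
    · rintro (a | l')
      · exact (hlin a).trans (dg_pos d l)
      · by_cases h : l' < ⟨l + 1, hl⟩
        · simp only [Sum.elim_inr, if_pos h]
          refine natDegree_map_le.trans ((Az_natDegree d G n0 t u l').trans (dg_mono d ?_))
          rw [Fin.lt_def] at h
          simp only at h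
          omega
        · simp [h]
    · exact dg_step d (by simp)

/-- the values of the nested integral parts -/
def IsSys (G : Fin s → MvPolynomial (Fin k ⊕ Fin s) ℝ) (v : Fin s → (Fin k → ℤ) → ℤ) : Prop :=
  ∀ l n, v l n = ⌊MvPolynomial.eval (Sum.elim (fun a => (n a : ℝ))
    (fun l' => if l' < l then (v l' n : ℝ) else 0)) (G l)⌋

/-- the argument of the `l`-th integral part -/
noncomputable def arg (G : Fin s → MvPolynomial (Fin k ⊕ Fin s) ℝ)
    (v : Fin s → (Fin k → ℤ) → ℤ) (l : Fin s) (n : Fin k → ℤ) : ℝ :=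
  MvPolynomial.eval (Sum.elim (fun a => (n a : ℝ))
    (fun l' => if l' < l then (v l' n : ℝ) else 0)) (G l)

/-- **Good progressions through regular points in every direction.** -/
theorem core (k s d M : ℕ) (hM : 1 ≤ M) (ρ : ℝ) (hρ : 0 < ρ) : ∃ J : ℕ, 1 ≤ J ∧
    ∀ (G : Fin s → MvPolynomial (Fin k ⊕ Fin s) ℝ), (∀ l, (G l).totalDegree ≤ d) →
    ∀ (v : Fin s → (Fin k → ℤ) → ℤ), IsSys G v → ∀ n0 t : Fin k → ℤ,
      (∀ l, ρ ≤ Int.fract (arg G v l n0) ∧ Int.fract (arg G v l n0) ≤ 1 - ρ) →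
      ∃ j : ℕ, 1 ≤ j ∧ j ≤ J ∧ ∃ A : Fin s → ℤ[X], (∀ l, (A l).natDegree ≤ dg d s) ∧
        ∀ i : ℤ, |i| ≤ M → ∀ l, v l (fun a => n0 a + i * (j * t a)) = (A l).eval i := by
  classical
  set E : ℕ := dg d s with hE
  set D : ℕ := E.factorial with hD
  have hEpos : 1 ≤ E := dg_pos d s
  have hDpos : 1 ≤ D := Nat.factorial_pos _
  have hMr : (1 : ℝ) ≤ M := by exact_mod_cast hM
  have hDr : (1 : ℝ) ≤ D := by exact_mod_cast hDpos
  have hEr : (1 : ℝ) ≤ E := by exact_mod_cast hEpos
  -- the precision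
  set ε : ℝ := min (1 / 3) (ρ / (2 * E * (M : ℝ) ^ E)) with hε
  have hMpos : (0 : ℝ) < (M : ℝ) ^ E := by positivity
  have hε0 : 0 < ε := lt_min (by norm_num) (by positivity)
  have hε2 : ε < 1 / 2 := lt_of_le_of_lt (min_le_left _ _) (by norm_num)
  have hερ : (E : ℝ) * (ε * (M : ℝ) ^ E) < ρ := by
    have h1 : ε ≤ ρ / (2 * E * (M : ℝ) ^ E) := min_le_right _ _
    have h2 : (E : ℝ) * (ε * (M : ℝ) ^ E) ≤ (E : ℝ) * (ρ / (2 * E * (M : ℝ) ^ E) * (M : ℝ) ^ E) := by
      gcongr
    have h3 : (E : ℝ) * (ρ / (2 * E * (M : ℝ) ^ E) * (M : ℝ) ^ E) = ρ / 2 := by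
      field_simp
    linarith
  obtain ⟨q, hq⟩ := exists_nat_gt (max ((2 : ℝ) ^ (E + 1))
    ((M : ℝ) ^ E * (D : ℝ) ^ E * 2 ^ E / ε))
  have hq1 : 2 ^ (E + 1) < q := by
    have := lt_of_le_of_lt (le_max_left _ _) hq
    exact_mod_cast this
  have hq2 : (M : ℝ) ^ E * (D : ℝ) ^ E * 2 ^ E ≤ ε * q := by
    have := lt_of_le_of_lt (le_max_right _ _) hq
    rw [div_lt_iff₀ hε0] at this
    linarith
  have hq0 : 0 < q := lt_trans (by positivity) hq1
  have hqr : (0 : ℝ) < q := by exact_mod_cast hq0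
  obtain ⟨W, hW⟩ := vdw (E + 1) (by omega) (Fin s → Fin (E + 1) → Fin q)
  refine ⟨D * W + 1, by omega, ?_⟩
  intro G hG v hv n0 t hreg
  have hfl : ∀ y : ℝ, ⌊(q : ℝ) * Int.fract y⌋₊ < q := by
    intro y
    rw [Nat.floor_lt (mul_nonneg hqr.le (Int.fract_nonneg _))]
    have := Int.fract_lt_one y
    nlinarith
  obtain ⟨u0, j, hj1, hjW, hmono⟩ := hW (fun u l w =>
    ⟨⌊(q : ℝ) * Int.fract ((Ar d G n0 t u l).coeff w + 1 / 2)⌋₊, hfl _⟩)
  set T : Dat := ⟨u0, j, E + 1, D, M⟩ with hT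
  -- all polynomials are compatible
  have hGC : ∀ l : Fin s, GC T (fun u => (Az d G n0 t u l).map (Int.castRingHom ℝ)) ∧
      ∀ w, 1 ≤ w → w ≤ dg d l → ∀ i : ℤ, |i| ≤ M →
        |(Ar d G n0 t (i * (D * j)) l).coeff w -
          round ((Ar d G n0 t (i * (D * j)) l).coeff w)| ≤ ε := by
    intro l
    induction l using WellFoundedLT.induction with
    | _ l ih =>
    have hArGC : GC T (fun u => Ar d G n0 t u l) := by
      refine GC.aeval (t := T) (fun s' u => Sum.elim
        (fun a => (C (n0 a : ℝ) + C ((t a : ℝ) * u) * X : ℝ[X]))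
        (fun l' => if l' < l then (Az d G n0 t u l').map (Int.castRingHom ℝ) else 0) s') ?_ (G l)
      rintro (a | l')
      · exact GC.lin _ _
      · by_cases h : l' < l
        · exact GC.congr (fun u => by simp only [Sum.elim_inr, if_pos h]) (ih l' h).1
        · refine GC.congr (fun u => ?_) (GC.const (t := T) 0)
          simp only [Sum.elim_inr, if_neg h, map_zero]
    have hdE : dg d l ≤ E := dg_mono d l.2.le
    have hLl : dg d l + 1 ≤ T.L := by show dg d l + 1 ≤ E + 1; omega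
    have key := GC.rnd (t := T) (d := dg d l) (q := q) (ε := ε) hArGC hLl
      (lt_of_le_of_lt (Nat.pow_le_pow_right (by norm_num) (by omega)) hq1)
      (fun w h1 h2 => Nat.factorial_dvd_factorial (h2.trans hdE)) hDpos hM ?_ hε2
      (fun w => ⌊(q : ℝ) * Int.fract ((Ar d G n0 t u0 l).coeff w + 1 / 2)⌋₊) ?_
    · refine ⟨?_, key.2⟩
      exact GC.congr (fun u => by rw [Az_eq]) key.1
    · refine le_trans ?_ hq2
      refine mul_le_mul (mul_le_mul (pow_le_pow_right₀ hMr hdE) (pow_le_pow_right₀ hDr hdE)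
        (by positivity) (by positivity)) (pow_le_pow_right₀ (by norm_num) hdE) (by positivity)
        (by positivity)
    · intro w h1 h2 a ha
      have h3 := congrFun (congrFun (hmono a ha) l) ⟨w, by omega⟩
      exact congrArg Fin.val h3
  -- the progression
  set J : ℤ := D * j with hJ
  have hJn : (D * j : ℕ) ≤ D * W + 1 := by nlinarith
  refine ⟨D * j, Nat.one_le_iff_ne_zero.2 (by positivity), hJn, fun l => Az d G n0 t J l, ?_, ?_⟩
  · intro l
    exact (Az_natDegree d G n0 t J l).trans (dg_mono d l.2.le)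
  · intro i hi l
    have hmain : ∀ l : Fin s, ∀ i : ℤ, |i| ≤ M →
        v l (fun a => n0 a + i * ((D * j : ℕ) * t a)) = (Az d G n0 t J l).eval i := by
      intro l
      induction l using WellFoundedLT.induction with
      | _ l ih =>
      -- the evaluation of `Ar`
      have hev : ∀ i : ℤ, |i| ≤ M → (Ar d G n0 t J l).eval (i : ℝ) =
          arg G v l (fun a => n0 a + i * ((D * j : ℕ) * t a)) := by
        intro i hi
        unfold Ar arg
        have e1 : ∀ (φ : Fin k ⊕ Fin s → ℝ[X]) (H : MvPolynomial (Fin k ⊕ Fin s) ℝ),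
            (MvPolynomial.aeval φ H).eval (i : ℝ) =
              MvPolynomial.eval (fun s' => (φ s').eval (i : ℝ)) H := by
          intro φ H
          induction H using MvPolynomial.induction_on with
          | C a => simp
          | add p q hp hq => simp only [map_add, eval_add, hp, hq]
          | mul_X p s' hp => simp only [map_mul, eval_mul, hp, MvPolynomial.aeval_X,
              MvPolynomial.eval_X]
        rw [e1]
        congr 2
        funext s'
        rcases s' with a | l'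
        · simp only [Sum.elim_inl, eval_add, eval_C, eval_mul, eval_X]
          rw [hJ]; push_cast; ring
        · by_cases h : l' < l
          · simp only [Sum.elim_inr, if_pos h]
            rw [ih l' h i hi]
            rw [eval_map, eval₂_at_intCast]
            simp
          · simp only [Sum.elim_inr, if_neg h, eval_zero]
      intro i hi
      have h0 : (Ar d G n0 t J l).coeff 0 = arg G v l n0 := by
        have := hev 0 (by simp)
        rw [Int.cast_zero, ← coeff_zero_eq_eval_zero] at this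
        rw [this]
        congr 1
        funext a; simp
      rw [Az_eq, hv l, ← arg, ← hev i hi]
      refine rnd_eval (Ar_natDegree d G hG n0 t J l) (ε := ε) (ρ := ρ) (M := M) hM ?_ ?_ hε0.le ?_ ?_
        hi
      · refine lt_of_le_of_lt ?_ hερ
        have hdE : dg d l ≤ E := dg_mono d l.2.le
        have h1 : ((dg d l : ℕ) : ℝ) ≤ E := by exact_mod_cast hdE
        have h2 : (M : ℝ) ^ (dg d l) ≤ (M : ℝ) ^ E := pow_le_pow_right₀ hMr hdE
        gcongr
      · intro w h1 h2
        have := (hGC l).2 w h1 h2 1 (by simpa using (by exact_mod_cast hM : (1 : ℤ) ≤ M))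
        rw [one_mul] at this
        exact this
      · rw [h0]; exact (hreg l).1
      · rw [h0]; exact (hreg l).2
    exact hmain l i hi

end Pool.Agent.K6.H59.GP
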